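import Pool.Agent.H12.GW.EDef

/-!
# Increments over windows: continuity, restriction
-/

open MeasureTheory Set Topology
open Pool.Agent.H37.DL

namespace Pool.Agent.H12.GW

variable {Ω : Type*} [MeasurableSpace Ω] {P : Measure Ω} {Pi : Ω → C(unitInterval, ℝ)}

theorem etaW_half (π : C(unitInterval, ℝ)) (t : ℝ) : etaW (1 / 2) π t = eta π t := rfl

theorem continuous_etaW_uncurry (r : ℝ) :
    Continuous fun p : ℝ × C(unitInterval, ℝ) => etaW r p.2 p.1 := by
  apply ContinuousMap.continuous_of_continuous_uncurry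
  show Continuous fun p : (ℝ × C(unitInterval, ℝ)) × Set.Icc (0 : ℝ) r =>
    ext p.1.2 (p.1.1 + p.2) - ext p.1.2 p.1.1
  unfold Pool.Agent.H37.DL.ext
  fun_prop

theorem continuous_etaW (r t : ℝ) : Continuous fun π : C(unitInterval, ℝ) => etaW r π t :=
  (continuous_etaW_uncurry r).comp (Continuous.prodMk_right t)

theorem measurable_etaW (hPi : Measurable Pi) (r t : ℝ) : Measurable fun ω => etaW r (Pi ω) t :=
  (continuous_etaW r t).measurable.comp hPi

/-- restriction to a shorter window -/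
def res {r' r : ℝ} (h : r' ≤ r) (g : C(Set.Icc (0 : ℝ) r, ℝ)) : C(Set.Icc (0 : ℝ) r', ℝ) where
  toFun s := g ⟨s, s.2.1, s.2.2.trans h⟩

theorem continuous_res {r' r : ℝ} (h : r' ≤ r) : Continuous (res h) := by
  apply ContinuousMap.continuous_of_continuous_uncurry
  show Continuous fun p : C(Set.Icc (0 : ℝ) r, ℝ) × Set.Icc (0 : ℝ) r' =>
    p.1 ⟨p.2, p.2.2.1, p.2.2.2.trans h⟩
  fun_prop

theorem res_etaW {r' r : ℝ} (h : r' ≤ r) (π : C(unitInterval, ℝ)) (t : ℝ) :
    res h (etaW r π t) = etaW r' π t := rfl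

theorem map_res (hPi : Measurable Pi) {r' r : ℝ} (h : r' ≤ r) (t : ℝ) :
    (P.map fun ω => etaW r (Pi ω) t).map (res h) = P.map fun ω => etaW r' (Pi ω) t := by
  rw [Measure.map_map (continuous_res h).measurable (measurable_etaW hPi r t)]
  rfl

/-- absolute continuity passes to shorter windows -/
theorem ac_res (hPi : Measurable Pi) {r' r : ℝ} (h : r' ≤ r) {t u : ℝ}
    (hac : P.map (fun ω => etaW r (Pi ω) t) ≪ P.map (fun ω => etaW r (Pi ω) u)) :
    P.map (fun ω => etaW r' (Pi ω) t) ≪ P.map (fun ω => etaW r' (Pi ω) u) := by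
  rw [← map_res hPi h t, ← map_res hPi h u]
  exact hac.map (continuous_res h).measurable

/-- preimages of mutually singular images are mutually singular -/
theorem sing_of_map {X Y : Type*} [MeasurableSpace X] [MeasurableSpace Y] {μ ν : Measure X}
    {f : X → Y} (hf : Measurable f) (h : μ.map f ⟂ₘ ν.map f) : μ ⟂ₘ ν := by
  obtain ⟨s, hs, h1, h2⟩ := h
  refine ⟨f ⁻¹' s, hf hs, ?_, ?_⟩
  · rw [Measure.map_apply hf hs] at h1
    exact h1
  · rw [Measure.map_apply hf hs.compl] at h2
    exact h2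

/-- mutual singularity passes to longer windows -/
theorem sing_res (hPi : Measurable Pi) {r' r : ℝ} (h : r' ≤ r) {t u : ℝ}
    (hs : P.map (fun ω => etaW r' (Pi ω) t) ⟂ₘ P.map (fun ω => etaW r' (Pi ω) u)) :
    P.map (fun ω => etaW r (Pi ω) t) ⟂ₘ P.map (fun ω => etaW r (Pi ω) u) := by
  rw [← map_res hPi h t, ← map_res hPi h u] at hs
  exact sing_of_map (continuous_res h).measurable hs

end Pool.Agent.H12.GW
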