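import Pool.Agent.H12.GW.Hat

/-!
# Transfer of null sets between two random data
-/

open MeasureTheory ProbabilityTheory Filter Topology Set

namespace Pool.Agent.H12.GW

variable {Ω : Type*} [MeasurableSpace Ω] {P : Measure Ω}

/-- random data `D` of a random path `inc` (given at the rational times), with the hats `Φ K r j`,
`Φ' K r j` for the two profiles -/
structure IsData (P : Measure Ω) (Φ Φ' : ℕ → ℕ → ℕ → ℝ → ℝ) (D : Ω → E0) (inc : Ω → T0 → ℝ) :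
    Prop where
  meas : Measurable D
  id_eq : ∀ᵐ ω ∂P, Psi id (D ω) = inc ω
  box_eq : ∀ᵐ ω ∂P, ∃ K : ℕ, D ω ∈ G K ∧ Psi (fun _ => K) (D ω) = inc ω
  hat_eq : ∀ᵐ ω ∂P, ∀ K : ℕ, D ω ∈ G K →
    ∃ r j : ℕ, Psi id (hat (Φ K r j) (Φ' K r j) (D ω)) = Psi (fun _ => K) (D ω)
  hat_ac : ∀ K r j : ℕ, P.map (fun ω => hat (Φ K r j) (Φ' K r j) (D ω)) ≪ P.map D

/-- hats of the data do not give paths in a null set -/
theorem null_hat {Φ Φ' : ℕ → ℕ → ℕ → ℝ → ℝ} {D : Ω → E0} {inc : Ω → T0 → ℝ}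
    (hD : IsData P Φ Φ' D inc) {B : Set (T0 → ℝ)} (hB : MeasurableSet B)
    (h0 : ∀ᵐ ω ∂P, inc ω ∉ B) :
    ∀ᵐ ω ∂P, ∀ K r j : ℕ, Psi id (hat (Φ K r j) (Φ' K r j) (D ω)) ∉ B := by
  rw [ae_all_iff]
  intro K
  rw [ae_all_iff]
  intro r
  rw [ae_all_iff]
  intro j
  have hS : MeasurableSet {e : E0 | Psi id e ∉ B} := (measurable_Psi id hB).compl
  have h1 : ∀ᵐ ω ∂P, Psi id (D ω) ∉ B := by
    filter_upwards [h0, hD.id_eq] with ω h2 h3
    rw [h3]
    exact h2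
  have h2 : ∀ᵐ e ∂(P.map D), Psi id e ∉ B := (ae_map_iff hD.meas.aemeasurable hS).2 h1
  have h3 : ∀ᵐ e ∂(P.map fun ω => hat (Φ K r j) (Φ' K r j) (D ω)), Psi id e ∉ B :=
    (hD.hat_ac K r j).ae_le h2
  exact (ae_map_iff ((measurable_hat _ _).comp hD.meas).aemeasurable hS).1 h3

theorem null_box {Φ Φ' : ℕ → ℕ → ℕ → ℝ → ℝ} {D : Ω → E0} {inc : Ω → T0 → ℝ}
    (hD : IsData P Φ Φ' D inc) {B : Set (T0 → ℝ)} (hB : MeasurableSet B)
    (h0 : ∀ᵐ ω ∂P, inc ω ∉ B) (K : ℕ) :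
    ∀ᵐ ω ∂P, D ω ∈ G K → Psi (fun _ => K) (D ω) ∉ B := by
  filter_upwards [null_hat hD hB h0, hD.hat_eq] with ω h1 h2 h3
  obtain ⟨r, j, h4⟩ := h2 K h3
  rw [← h4]
  exact h1 K r j

/-- If the truncated data are absolutely continuous, so are the paths. -/
theorem null_transfer {Φ Φ' : ℕ → ℕ → ℕ → ℝ → ℝ} {D D' : Ω → E0} {inc inc' : Ω → T0 → ℝ}
    (hD : IsData P Φ Φ' D inc) (hD' : IsData P Φ Φ' D' inc')
    (hac : ∀ K : ℕ, P.map (fun ω => truncE K (D ω)) ≪ P.map (fun ω => truncE K (D' ω)))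
    {B : Set (T0 → ℝ)} (hB : MeasurableSet B) (h0 : ∀ᵐ ω ∂P, inc' ω ∉ B) :
    ∀ᵐ ω ∂P, inc ω ∉ B := by
  have key : ∀ K : ℕ, ∀ᵐ ω ∂P, D ω ∈ G K → Psi (fun _ => K) (D ω) ∉ B := by
    intro K
    have hS : MeasurableSet {e : E0 | e ∈ G K → Psi (fun _ => K) e ∉ B} := by
      have : {e : E0 | e ∈ G K → Psi (fun _ => K) e ∉ B} =
          (G K)ᶜ ∪ {e : E0 | Psi (fun _ => K) e ∉ B} := by
        ext e
        simp only [mem_ofPred_eq, mem_union, mem_compl_iff]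
        tauto
      rw [this]
      exact (measurableSet_G K).compl.union (measurable_Psi _ hB).compl
    have hmu := (measurable_truncE K).comp hD'.meas
    have hmt := (measurable_truncE K).comp hD.meas
    have h1 : ∀ᵐ e ∂(P.map fun ω => truncE K (D' ω)), e ∈ G K → Psi (fun _ => K) e ∉ B := by
      refine (ae_map_iff hmu.aemeasurable hS).2 ?_
      filter_upwards [null_box hD' hB h0 K] with ω h2
      simp only [Function.comp_apply]
      rw [truncE_mem_G, Psi_truncE]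
      exact h2
    have h2 : ∀ᵐ e ∂(P.map fun ω => truncE K (D ω)), e ∈ G K → Psi (fun _ => K) e ∉ B :=
      (hac K).ae_le h1
    have h3 := (ae_map_iff hmt.aemeasurable hS).1 h2
    filter_upwards [h3] with ω h4
    simp only [Function.comp_apply] at h4
    rw [truncE_mem_G, Psi_truncE] at h4
    exact h4
  filter_upwards [ae_all_iff.2 key, hD.box_eq] with ω h1 h2
  obtain ⟨K, h3, h4⟩ := h2
  rw [← h4]
  exact h1 K h3

end Pool.Agent.H12.GW
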