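import Pool.Agent.H37.DL.Land
import Pool.Agent.H12.GW.Trans

/-!
# The data of the window `[0, 1]` of a landscape: independence and laws
-/

open MeasureTheory ProbabilityTheory Filter Topology Set
open Pool.Agent.H37.DL

namespace Pool.Agent.H12.GW

variable {Ω : Type*} [MeasurableSpace Ω] {P : Measure Ω} [IsProbabilityMeasure P]
  {M M' : Ω → ℝ → ℝ → ℝ → ℝ → ℝ} {s₀ s₀' s₁ s₁' : ℝ}

/-- profile from `(0, s₀)` at time `0` -/
def D1 (M : Ω → ℝ → ℝ → ℝ → ℝ → ℝ) (s₀ : ℝ) (ω : Ω) (x : ℚ) : ℝ := M ω 0 s₀ x 0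

/-- landscape on `[0, 1]` -/
def D2 (M : Ω → ℝ → ℝ → ℝ → ℝ → ℝ) (ω : Ω) (q : J0) : ℝ :=
  M ω q.1.1 q.1.2.1 q.1.2.2.1 q.1.2.2.2

/-- landscape on `[0, 1]`, the initial points of time `0` being replaced by `(0, 0)` -/
noncomputable def D2' (M : Ω → ℝ → ℝ → ℝ → ℝ → ℝ) (ω : Ω) (q : J0) : ℝ :=
  M ω (if q.1.2.1 = 0 then 0 else (q.1.1 : ℝ)) q.1.2.1 q.1.2.2.1 q.1.2.2.2

/-- profile to `(0, s₁)` at time `1` -/
def D3 (M : Ω → ℝ → ℝ → ℝ → ℝ → ℝ) (s₁ : ℝ) (ω : Ω) (y : ℚ) : ℝ := M ω y 1 0 s₁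

/-- the data of a window inside -/
def D (M : Ω → ℝ → ℝ → ℝ → ℝ → ℝ) (s₀ s₁ : ℝ) (ω : Ω) : E0 := ((D1 M s₀ ω, D2 M ω), D3 M s₁ ω)

/-- the data of a window at the start -/
noncomputable def D' (M : Ω → ℝ → ℝ → ℝ → ℝ → ℝ) (s₁ : ℝ) (ω : Ω) : E0 :=
  ((fun x => -|(x : ℝ)|, D2' M ω), D3 M s₁ ω)

theorem J0_lt (q : J0) : (q.1.2.1 : ℝ) < (q.1.2.2.2 : ℝ) := by exact_mod_cast q.2.2.1

theorem J0_le (q : J0) : (q.1.2.2.2 : ℝ) ≤ 1 := by exact_mod_cast q.2.2.2

theorem J0_nonneg (q : J0) : (0 : ℝ) ≤ (q.1.2.1 : ℝ) := by exact_mod_cast q.2.1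

theorem measurable_D1 (hM : IsDirectedLandscape P M) (h0 : s₀ < 0) : Measurable (D1 M s₀) :=
  measurable_pi_lambda _ fun _ => hM.meas _ _ h0

theorem measurable_D2 (hM : IsDirectedLandscape P M) : Measurable (D2 M) :=
  measurable_pi_lambda _ fun q => hM.meas _ _ (J0_lt q)

theorem measurable_D2' (hM : IsDirectedLandscape P M) : Measurable (D2' M) :=
  measurable_pi_lambda _ fun q => hM.meas _ _ (J0_lt q)

theorem measurable_D3 (hM : IsDirectedLandscape P M) (h1 : 1 < s₁) : Measurable (D3 M s₁) :=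
  measurable_pi_lambda _ fun _ => hM.meas _ _ h1

theorem measurable_D (hM : IsDirectedLandscape P M) (h0 : s₀ < 0) (h1 : 1 < s₁) :
    Measurable (D M s₀ s₁) :=
  ((measurable_D1 hM h0).prodMk (measurable_D2 hM)).prodMk (measurable_D3 hM h1)

theorem measurable_D' (hM : IsDirectedLandscape P M) (h1 : 1 < s₁) : Measurable (D' M s₁) :=
  (measurable_const.prodMk (measurable_D2' hM)).prodMk (measurable_D3 hM h1)

theorem indep_D12_D3 (hM : IsDirectedLandscape P M) (h0 : s₀ < 0) (h1 : 1 < s₁) :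
    IndepFun (fun ω => (D1 M s₀ ω, D2 M ω)) (D3 M s₁) P := by
  let φ : (Q4I s₀ 1 → ℝ) → (ℚ → ℝ) × (J0 → ℝ) := fun F =>
    (fun x => F ⟨(0, s₀, x, 0), le_rfl, h0, zero_le_one⟩,
      fun q => F ⟨(q.1.1, q.1.2.1, q.1.2.2.1, q.1.2.2.2),
        h0.le.trans (J0_nonneg q), J0_lt q, J0_le q⟩)
  let ψ : (Q4F 1 → ℝ) → (ℚ → ℝ) := fun F y => F ⟨(y, 1, 0, s₁), le_rfl, h1⟩
  have hφ : Measurable φ := by
    refine Measurable.prodMk (measurable_pi_lambda _ fun x => measurable_pi_apply _)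
      (measurable_pi_lambda _ fun x => measurable_pi_apply _)
  have hψ : Measurable ψ := measurable_pi_lambda _ fun x => measurable_pi_apply _
  exact (hM.indep_past_future s₀ 1).comp hφ hψ

theorem indep_D2'_D3 (hM : IsDirectedLandscape P M) (h1 : 1 < s₁) :
    IndepFun (D2' M) (D3 M s₁) P := by
  let φ : (Q4I 0 1 → ℝ) → (J0 → ℝ) := fun F q =>
    F ⟨(if q.1.2.1 = 0 then 0 else (q.1.1 : ℝ), q.1.2.1, q.1.2.2.1, q.1.2.2.2),
      J0_nonneg q, J0_lt q, J0_le q⟩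
  let ψ : (Q4F 1 → ℝ) → (ℚ → ℝ) := fun F y => F ⟨(y, 1, 0, s₁), le_rfl, h1⟩
  have hφ : Measurable φ := measurable_pi_lambda _ fun x => measurable_pi_apply _
  have hψ : Measurable ψ := measurable_pi_lambda _ fun x => measurable_pi_apply _
  exact (hM.indep_past_future 0 1).comp hφ hψ

theorem indep_D1_D2 (hM : IsDirectedLandscape P M) (h0 : s₀ < 0) :
    IndepFun (D1 M s₀) (D2 M) P := by
  let φ : (Q4I s₀ 0 → ℝ) → (ℚ → ℝ) := fun F x => F ⟨(0, s₀, x, 0), le_rfl, h0, le_rfl⟩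
  let ψ : (Q4F 0 → ℝ) → (J0 → ℝ) := fun F q =>
    F ⟨(q.1.1, q.1.2.1, q.1.2.2.1, q.1.2.2.2), J0_nonneg q, J0_lt q⟩
  have hφ : Measurable φ := measurable_pi_lambda _ fun x => measurable_pi_apply _
  have hψ : Measurable ψ := measurable_pi_lambda _ fun x => measurable_pi_apply _
  exact (hM.indep_past_future s₀ 0).comp hφ hψ

/-- the law of the data, the profiles being transformed separately -/
theorem map_D (hM : IsDirectedLandscape P M) (h0 : s₀ < 0) (h1 : 1 < s₁)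
    {A1 A3 : (ℚ → ℝ) → (ℚ → ℝ)} (hA1 : Measurable A1) (hA3 : Measurable A3) :
    P.map (fun ω => ((A1 (D1 M s₀ ω), D2 M ω), A3 (D3 M s₁ ω))) =
      ((P.map fun ω => A1 (D1 M s₀ ω)).prod (P.map (D2 M))).prod
        (P.map fun ω => A3 (D3 M s₁ ω)) := by
  have hm1 : Measurable fun ω => A1 (D1 M s₀ ω) := hA1.comp (measurable_D1 hM h0)
  have hm3 : Measurable fun ω => A3 (D3 M s₁ ω) := hA3.comp (measurable_D3 hM h1)
  have hm2 := measurable_D2 hM
  have hi : IndepFun (fun ω => (A1 (D1 M s₀ ω), D2 M ω)) (fun ω => A3 (D3 M s₁ ω)) P :=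
    (indep_D12_D3 hM h0 h1).comp (φ := fun p : (ℚ → ℝ) × (J0 → ℝ) => (A1 p.1, p.2)) (ψ := A3)
      ((hA1.comp measurable_fst).prodMk measurable_snd) hA3
  have hj : IndepFun (fun ω => A1 (D1 M s₀ ω)) (D2 M) P :=
    (indep_D1_D2 hM h0).comp (φ := A1) (ψ := id) hA1 measurable_id
  rw [(indepFun_iff_map_prod_eq_prod_map_map (hm1.prodMk hm2).aemeasurable hm3.aemeasurable).1 hi,
    (indepFun_iff_map_prod_eq_prod_map_map hm1.aemeasurable hm2.aemeasurable).1 hj]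

/-- the same for a window at the start -/
theorem map_D' (hM : IsDirectedLandscape P M) (h1 : 1 < s₁) (c : ℚ → ℝ)
    {A3 : (ℚ → ℝ) → (ℚ → ℝ)} (hA3 : Measurable A3) :
    P.map (fun ω => (((c, D2' M ω), A3 (D3 M s₁ ω)) : E0)) =
      ((P.map (D2' M)).prod (P.map fun ω => A3 (D3 M s₁ ω))).map
        (fun p : (J0 → ℝ) × (ℚ → ℝ) => (((c, p.1), p.2) : E0)) := by
  have hm3 : Measurable fun ω => A3 (D3 M s₁ ω) := hA3.comp (measurable_D3 hM h1)
  have hm2 := measurable_D2' hM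
  have hi : IndepFun (D2' M) (fun ω => A3 (D3 M s₁ ω)) P :=
    (indep_D2'_D3 hM h1).comp (φ := id) (ψ := A3) measurable_id hA3
  have hj : Measurable (fun p : (J0 → ℝ) × (ℚ → ℝ) => (((c, p.1), p.2) : E0)) :=
    (measurable_const.prodMk measurable_fst).prodMk measurable_snd
  rw [← (indepFun_iff_map_prod_eq_prod_map_map hm2.aemeasurable hm3.aemeasurable).1 hi,
    Measure.map_map hj (hm2.prodMk hm3)]
  rfl

/-- the law of a landscape on `[0, 1]` -/
theorem law_D2 (hM : IsDirectedLandscape P M) (hM' : IsDirectedLandscape P M') :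
    P.map (D2 M) = P.map (D2 M') := by
  have h := hM.unique hM'
  let ψ : (Q4 → ℝ) → (J0 → ℝ) := fun F q =>
    F ⟨(q.1.1, q.1.2.1, q.1.2.2.1, q.1.2.2.2), J0_lt q⟩
  have hψ : Measurable ψ := measurable_pi_lambda _ fun x => measurable_pi_apply _
  have key : ∀ {N : Ω → ℝ → ℝ → ℝ → ℝ → ℝ}, IsDirectedLandscape P N → P.map (D2 N) =
      (P.map (fun ω (q : Q4) => ev (N ω) q)).map ψ := by
    intro N hN
    rw [Measure.map_map hψ]
    · rfl
    · exact measurable_pi_lambda _ fun q => hN.meas _ _ q.2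
  rw [key hM, key hM', h]

theorem law_D2' (hM : IsDirectedLandscape P M) (hM' : IsDirectedLandscape P M') :
    P.map (D2' M) = P.map (D2' M') := by
  have h := hM.unique hM'
  let ψ : (Q4 → ℝ) → (J0 → ℝ) := fun F q =>
    F ⟨(if q.1.2.1 = 0 then 0 else (q.1.1 : ℝ), q.1.2.1, q.1.2.2.1, q.1.2.2.2), J0_lt q⟩
  have hψ : Measurable ψ := measurable_pi_lambda _ fun x => measurable_pi_apply _
  have key : ∀ {N : Ω → ℝ → ℝ → ℝ → ℝ → ℝ}, IsDirectedLandscape P N → P.map (D2' N) =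
      (P.map (fun ω (q : Q4) => ev (N ω) q)).map ψ := by
    intro N hN
    rw [Measure.map_map hψ]
    · rfl
    · exact measurable_pi_lambda _ fun q => hN.meas _ _ q.2
  rw [key hM, key hM', h]

/-- extension by zero of a function on `[-K, K]` -/
noncomputable def zext (K : ℕ) (h : {x : ℚ // |x| ≤ K} → ℝ) (x : ℚ) : ℝ :=
  if hx : |x| ≤ K then h ⟨x, hx⟩ else 0

theorem measurable_zext (K : ℕ) : Measurable (zext K) := by
  refine measurable_pi_lambda _ fun x => ?_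
  unfold zext
  split_ifs
  · exact measurable_pi_apply _
  · exact measurable_const

theorem trunc_D1 (K : ℕ) (ω : Ω) : trunc K (D1 M s₀ ω) =
    zext K (fun i => M ω 0 s₀ ((i.1 : ℚ) : ℝ) 0 - M ω 0 s₀ 0 0) := by
  funext x
  simp only [trunc, zext, D1]
  split_ifs <;> simp

theorem trunc_D3 (K : ℕ) (ω : Ω) : trunc K (D3 M s₁ ω) =
    zext K (fun i => M ω ((i.1 : ℚ) : ℝ) 1 0 s₁ - M ω 0 1 0 s₁) := by
  funext x
  simp only [trunc, zext, D3]
  split_ifs <;> simp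

theorem ac_D1 (hM : IsDirectedLandscape P M) (hM' : IsDirectedLandscape P M') (h0 : s₀ < 0)
    (h0' : s₀' < 0) (K : ℕ) :
    P.map (fun ω => trunc K (D1 M s₀ ω)) ≪ P.map (fun ω => trunc K (D1 M' s₀' ω)) := by
  obtain ⟨Ωb, mb, Pb, b, hPb, hb⟩ := exists_isBM
  have hx : ∀ i : {x : ℚ // |x| ≤ K}, |((i.1 : ℚ) : ℝ)| ≤ (K : ℝ) := by
    intro i
    exact_mod_cast i.2
  have h := (hM.ac_forward hb h0 (fun i : {x : ℚ // |x| ≤ K} => ((i.1 : ℚ) : ℝ)) K hx).trans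
    (hM'.ac_forward' hb h0' (fun i : {x : ℚ // |x| ≤ K} => ((i.1 : ℚ) : ℝ)) K hx)
  have h2 := h.map (measurable_zext K)
  have key : ∀ {N : Ω → ℝ → ℝ → ℝ → ℝ → ℝ}, IsDirectedLandscape P N → ∀ v : ℝ, v < 0 →
      P.map (fun ω => trunc K (D1 N v ω)) =
      (P.map (fun ω (i : {x : ℚ // |x| ≤ K}) =>
        N ω 0 v ((i.1 : ℚ) : ℝ) 0 - N ω 0 v 0 0)).map (zext K) := by
    intro N hN v hv
    rw [Measure.map_map (measurable_zext K)]
    · congr 1
      funext ω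
      exact trunc_D1 K ω
    · exact measurable_pi_lambda _ fun q => (hN.meas _ _ hv).sub (hN.meas _ _ hv)
  rw [key hM _ h0, key hM' _ h0']
  exact h2

theorem ac_D3 (hM : IsDirectedLandscape P M) (hM' : IsDirectedLandscape P M') (h1 : 1 < s₁)
    (h1' : 1 < s₁') (K : ℕ) :
    P.map (fun ω => trunc K (D3 M s₁ ω)) ≪ P.map (fun ω => trunc K (D3 M' s₁' ω)) := by
  obtain ⟨Ωb, mb, Pb, b, hPb, hb⟩ := exists_isBM
  have hx : ∀ i : {x : ℚ // |x| ≤ K}, |((i.1 : ℚ) : ℝ)| ≤ (K : ℝ) := by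
    intro i
    exact_mod_cast i.2
  have h := (hM.ac_backward hb h1 (fun i : {x : ℚ // |x| ≤ K} => ((i.1 : ℚ) : ℝ)) K hx).trans
    (hM'.ac_backward' hb h1' (fun i : {x : ℚ // |x| ≤ K} => ((i.1 : ℚ) : ℝ)) K hx)
  have h2 := h.map (measurable_zext K)
  have key : ∀ {N : Ω → ℝ → ℝ → ℝ → ℝ → ℝ}, IsDirectedLandscape P N → ∀ v : ℝ, 1 < v →
      P.map (fun ω => trunc K (D3 N v ω)) =
      (P.map (fun ω (i : {x : ℚ // |x| ≤ K}) =>
        N ω ((i.1 : ℚ) : ℝ) 1 0 v - N ω 0 1 0 v)).map (zext K) := by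
    intro N hN v hv
    rw [Measure.map_map (measurable_zext K)]
    · congr 1
      funext ω
      exact trunc_D3 K ω
    · exact measurable_pi_lambda _ fun q => (hN.meas _ _ hv).sub (hN.meas _ _ hv)
  rw [key hM _ h1, key hM' _ h1']
  exact h2

/-- the truncated data of two windows inside are absolutely continuous -/
theorem ac_truncE (hM : IsDirectedLandscape P M) (hM' : IsDirectedLandscape P M') (h0 : s₀ < 0)
    (h0' : s₀' < 0) (h1 : 1 < s₁) (h1' : 1 < s₁') (K : ℕ) :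
    P.map (fun ω => truncE K (D M s₀ s₁ ω)) ≪ P.map (fun ω => truncE K (D M' s₀' s₁' ω)) := by
  have k1 := map_D hM h0 h1 (measurable_trunc K) (measurable_trunc K)
  have k2 := map_D hM' h0' h1' (measurable_trunc K) (measurable_trunc K)
  have e1 : P.map (fun ω => truncE K (D M s₀ s₁ ω)) = _ := k1
  have e2 : P.map (fun ω => truncE K (D M' s₀' s₁' ω)) = _ := k2
  rw [e1, e2, law_D2 hM hM']
  exact ((ac_D1 hM hM' h0 h0' K).prod Measure.AbsolutelyContinuous.rfl).prod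
    (ac_D3 hM hM' h1 h1' K)

/-- the truncated data of two windows at the start are absolutely continuous -/
theorem ac_truncE' (hM : IsDirectedLandscape P M) (hM' : IsDirectedLandscape P M')
    (h1 : 1 < s₁) (h1' : 1 < s₁') (K : ℕ) :
    P.map (fun ω => truncE K (D' M s₁ ω)) ≪ P.map (fun ω => truncE K (D' M' s₁' ω)) := by
  have k1 := map_D' hM h1 (trunc K fun x => -|(x : ℝ)|) (measurable_trunc K)
  have k2 := map_D' hM' h1' (trunc K fun x => -|(x : ℝ)|) (measurable_trunc K)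
  have e1 : P.map (fun ω => truncE K (D' M s₁ ω)) = _ := k1
  have e2 : P.map (fun ω => truncE K (D' M' s₁' ω)) = _ := k2
  rw [e1, e2, law_D2' hM hM']
  refine (Measure.AbsolutelyContinuous.rfl.prod (ac_D3 hM hM' h1 h1' K)).map ?_
  exact (measurable_const.prodMk measurable_fst).prodMk measurable_snd

/-- the data with hats are absolutely continuous with respect to the data -/
theorem ac_hat (hM : IsDirectedLandscape P M) (h0 : s₀ < 0) (h1 : 1 < s₁)
    {φ : ℝ → ℝ} (hφ : ContDiff ℝ 1 φ) (hφc : HasCompactSupport φ) (hφ0 : ∀ x, 0 ≤ φ x) :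
    P.map (fun ω => hat φ φ (D M s₀ s₁ ω)) ≪ P.map (D M s₀ s₁) := by
  have hA : Measurable fun (f : ℚ → ℝ) (x : ℚ) => f x + φ x :=
    measurable_pi_lambda _ fun x => (measurable_pi_apply x).add_const _
  have k1 := map_D hM h0 h1 hA hA
  have k2 := map_D hM h0 h1 measurable_id measurable_id
  have e1 : P.map (fun ω => hat φ φ (D M s₀ s₁ ω)) = _ := k1
  have e2 : P.map (D M s₀ s₁) = _ := k2
  rw [e1, e2]
  exact ((hM.hat_forward h0 hφ hφc hφ0 (fun x : ℚ => (x : ℝ))).prod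
    Measure.AbsolutelyContinuous.rfl).prod
      (hM.hat_backward h1 hφ hφc hφ0 (fun x : ℚ => (x : ℝ)))

/-- the same for a window at the start, with one hat -/
theorem ac_hat' (hM : IsDirectedLandscape P M) (h1 : 1 < s₁)
    {φ : ℝ → ℝ} (hφ : ContDiff ℝ 1 φ) (hφc : HasCompactSupport φ) (hφ0 : ∀ x, 0 ≤ φ x) :
    P.map (fun ω => hat (fun _ => 0) φ (D' M s₁ ω)) ≪ P.map (D' M s₁) := by
  have hA : Measurable fun (f : ℚ → ℝ) (x : ℚ) => f x + φ x :=
    measurable_pi_lambda _ fun x => (measurable_pi_apply x).add_const _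
  have k1 := map_D' hM h1 (fun x => -|(x : ℝ)|) hA
  have k2 := map_D' hM h1 (fun x => -|(x : ℝ)|) measurable_id
  have e1 : (fun ω => hat (fun _ => 0) φ (D' M s₁ ω)) =
      fun ω => (((fun x : ℚ => -|(x : ℝ)|, D2' M ω), fun x => D3 M s₁ ω x + φ x) : E0) := by
    funext ω
    simp only [hat, D', add_zero]
  have e2 : P.map (D' M s₁) = _ := k2
  rw [e1, k1, e2]
  refine (Measure.AbsolutelyContinuous.rfl.prod
    (hM.hat_backward h1 hφ hφc hφ0 (fun x : ℚ => (x : ℝ)))).map ?_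
  exact (measurable_const.prodMk measurable_fst).prodMk measurable_snd

end Pool.Agent.H12.GW
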