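import Pool.Agent.H11.DL6.Geo
import Pool.Agent.H12.GW.Law

/-!
# Almost sure properties of the data of the window `[0, 1]`
-/

open MeasureTheory ProbabilityTheory Filter Topology Set
open Pool.Agent.H37.DL
open Pool.Agent.H11.DL6 (comp_le comp_attained)

namespace Pool.Agent.H12.GW

variable {Ω : Type*} [MeasurableSpace Ω] {P : Measure Ω} [IsProbabilityMeasure P]
  {M : Ω → ℝ → ℝ → ℝ → ℝ → ℝ} {s₀ s₁ : ℝ} {ψ : Ω → ℝ → ℝ}

/-- total weight through `p` at times `0`, `b`, `1` -/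
def W3 (M : Ω → ℝ → ℝ → ℝ → ℝ → ℝ) (s₀ s₁ b : ℝ) (ω : Ω) (p : ℝ × ℝ × ℝ) : ℝ :=
  M ω 0 s₀ p.1 0 + M ω p.1 0 p.2.1 b + M ω p.2.1 b p.2.2 1 + M ω p.2.2 1 0 s₁

/-- total weight through `p` at times `0`, `1` -/
def W2 (M : Ω → ℝ → ℝ → ℝ → ℝ → ℝ) (s₀ s₁ : ℝ) (ω : Ω) (p : ℝ × ℝ) : ℝ :=
  M ω 0 s₀ p.1 0 + M ω p.1 0 p.2 1 + M ω p.2 1 0 s₁

/-- total weight through `p` at times `b`, `1` from `(0, 0)`, with the penalty `|x|` -/
noncomputable def W3' (M : Ω → ℝ → ℝ → ℝ → ℝ → ℝ) (s₁ b : ℝ) (ω : Ω) (p : ℝ × ℝ × ℝ) : ℝ :=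
  -|p.1| + M ω 0 0 p.2.1 b + M ω p.2.1 b p.2.2 1 + M ω p.2.2 1 0 s₁

/-- total weight through `p` at time `1` from `(0, 0)`, with the penalty `|x|` -/
noncomputable def W2' (M : Ω → ℝ → ℝ → ℝ → ℝ → ℝ) (s₁ : ℝ) (ω : Ω) (p : ℝ × ℝ) : ℝ :=
  -|p.1| + M ω 0 0 p.2 1 + M ω p.2 1 0 s₁

theorem continuous_M (hM : IsDirectedLandscape P M) (ω : Ω) {α : Type*} [TopologicalSpace α]
    {s t : ℝ} (hst : s < t) {f g : α → ℝ} (hf : Continuous f) (hg : Continuous g) :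
    Continuous fun a => M ω (f a) s (g a) t := by
  have h : Continuous fun a => ((f a, s, g a, t) : ℝ × ℝ × ℝ × ℝ) := by fun_prop
  rw [← continuousOn_univ] at h ⊢
  exact (hM.cont ω).comp h fun a _ => hst

theorem continuous_W3 (hM : IsDirectedLandscape P M) (h0 : s₀ < 0) (h1 : 1 < s₁) {b : ℝ}
    (hb0 : 0 < b) (hb1 : b < 1) (ω : Ω) : Continuous (W3 M s₀ s₁ b ω) := by
  unfold W3
  exact (((continuous_M hM ω h0 continuous_const continuous_fst).add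
    (continuous_M hM ω hb0 continuous_fst (by fun_prop))).add
    (continuous_M hM ω hb1 (by fun_prop) (by fun_prop))).add
    (continuous_M hM ω h1 (by fun_prop) continuous_const)

theorem continuous_W2 (hM : IsDirectedLandscape P M) (h0 : s₀ < 0) (h1 : 1 < s₁) (ω : Ω) :
    Continuous (W2 M s₀ s₁ ω) := by
  unfold W2
  exact ((continuous_M hM ω h0 continuous_const continuous_fst).add
    (continuous_M hM ω zero_lt_one continuous_fst (by fun_prop))).add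
    (continuous_M hM ω h1 (by fun_prop) continuous_const)

theorem continuous_W3' (hM : IsDirectedLandscape P M) (h1 : 1 < s₁) {b : ℝ}
    (hb0 : 0 < b) (hb1 : b < 1) (ω : Ω) : Continuous (W3' M s₁ b ω) := by
  unfold W3'
  exact (((continuous_fst.abs.neg).add
    (continuous_M hM ω hb0 continuous_const (by fun_prop))).add
    (continuous_M hM ω hb1 (by fun_prop) (by fun_prop))).add
    (continuous_M hM ω h1 (by fun_prop) continuous_const)

theorem continuous_W2' (hM : IsDirectedLandscape P M) (h1 : 1 < s₁) (ω : Ω) :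
    Continuous (W2' M s₁ ω) := by
  unfold W2'
  exact ((continuous_fst.abs.neg).add
    (continuous_M hM ω zero_lt_one continuous_const (by fun_prop))).add
    (continuous_M hM ω h1 (by fun_prop) continuous_const)

theorem M3_D (ω : Ω) (s : T0) (q : ℚ × ℚ × ℚ) :
    M3 s (D M s₀ s₁ ω) q = W3 M s₀ s₁ (s.1 : ℝ) ω (cst q) := by
  simp [M3, D, D1, D2, D3, W3, lo, up, cst]

theorem M2_D (ω : Ω) (x y : ℚ) : M2 (D M s₀ s₁ ω) x y = W2 M s₀ s₁ ω ((x : ℝ), (y : ℝ)) := by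
  simp [M2, D, D1, D2, D3, W2, wh]

theorem M3_D' (ω : Ω) (s : T0) (q : ℚ × ℚ × ℚ) :
    M3 s (D' M s₁ ω) q = W3' M s₁ (s.1 : ℝ) ω (cst q) := by
  have hs : (s.1 : ℚ) ≠ 0 := s.2.1.ne'
  simp [M3, D', D2', D3, W3', lo, up, cst, hs]

theorem M2_D' (ω : Ω) (x y : ℚ) : M2 (D' M s₁ ω) x y = W2' M s₁ ω ((x : ℝ), (y : ℝ)) := by
  simp [M2, D', D2', D3, W2', wh]

theorem T0_pos (s : T0) : (0 : ℝ) < (s.1 : ℝ) := by exact_mod_cast s.2.1

theorem T0_lt (s : T0) : (s.1 : ℝ) < 1 := by exact_mod_cast s.2.2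

/-- the increments of the path `ψ` at rational times -/
def inc (ψ : Ω → ℝ → ℝ) (ω : Ω) (s : T0) : ℝ := ψ ω (s.1 : ℝ) - ψ ω 0

/-- the data of a window inside -/
theorem isData (hM : IsDirectedLandscape P M) (h0 : s₀ < 0) (h1 : 1 < s₁)
    (hW3 : ∀ b, 0 < b → b < 1 → ∀ᵐ ω ∂P, ∀ p, p ≠ (ψ ω 0, ψ ω b, ψ ω 1) →
      W3 M s₀ s₁ b ω p < W3 M s₀ s₁ b ω (ψ ω 0, ψ ω b, ψ ω 1))
    (hW2 : ∀ᵐ ω ∂P, ∀ p, p ≠ (ψ ω 0, ψ ω 1) → W2 M s₀ s₁ ω p < W2 M s₀ s₁ ω (ψ ω 0, ψ ω 1)) :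
    IsData P hatFun hatFun (D M s₀ s₁) (inc ψ) where
  meas := measurable_D hM h0 h1
  id_eq := by
    have h : ∀ s : T0, ∀ᵐ ω ∂P, Psi id (D M s₀ s₁ ω) s = inc ψ ω s := by
      intro s
      filter_upwards [hW3 _ (T0_pos s) (T0_lt s)] with ω hω
      obtain ⟨n₀, hn₀⟩ := exists_nat_ge (max |ψ ω 0| (max |ψ ω (s.1 : ℝ)| |ψ ω 1|))
      have hc := continuous_W3 hM h0 h1 (T0_pos s) (T0_lt s) ω
      have key := PsiE_eq (κ := id) (n₀ := n₀) hc (p := (ψ ω 0, ψ ω (s.1 : ℝ), ψ ω 1)) hω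
        (fun n hn => by
          have hn' : (n₀ : ℝ) ≤ n := by exact_mod_cast hn
          have h1 := hn₀.trans hn'
          rw [max_le_iff, max_le_iff] at h1
          exact h1) (M3_D ω s)
      unfold Psi
      rw [key, EReal.toReal_coe]
      rfl
    filter_upwards [ae_all_iff.2 h] with ω hω
    exact funext hω
  box_eq := by
    have h : ∀ s : T0, ∀ᵐ ω ∂P, ∀ K : ℕ, |ψ ω 0| < K → |ψ ω 1| < K →
        Psi (fun _ => K) (D M s₀ s₁ ω) s = inc ψ ω s := by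
      intro s
      filter_upwards [hW3 _ (T0_pos s) (T0_lt s)] with ω hω K hK1 hK2
      obtain ⟨n₀, hn₀⟩ := exists_nat_ge |ψ ω (s.1 : ℝ)|
      have hc := continuous_W3 hM h0 h1 (T0_pos s) (T0_lt s) ω
      have key := PsiE_eq (κ := fun _ => K) (n₀ := n₀) hc
        (p := (ψ ω 0, ψ ω (s.1 : ℝ), ψ ω 1)) hω (fun n hn => by
          have hn' : (n₀ : ℝ) ≤ n := by exact_mod_cast hn
          exact ⟨hK1.le, hn₀.trans hn', hK2.le⟩) (M3_D ω s)
      unfold Psi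
      rw [key, EReal.toReal_coe]
      rfl
    filter_upwards [ae_all_iff.2 h, hW2] with ω hω hω2
    obtain ⟨K, hK⟩ := exists_nat_gt (max |ψ ω 0| |ψ ω 1|)
    rw [max_lt_iff] at hK
    refine ⟨K, ?_, funext fun s => hω s K hK.1 hK.2⟩
    exact mem_G (continuous_W2 hM h0 h1 ω) (M2_D ω) (p := (ψ ω 0, ψ ω 1)) hω2 hK.1 hK.2
  hat_eq := by
    have h32 : ∀ s : T0, ∀ᵐ ω ∂P, ∀ x z y : ℝ, M ω x 0 z (s.1 : ℝ) +
        M ω z (s.1 : ℝ) y 1 ≤ M ω x 0 y 1 := fun s => comp_le hM (T0_pos s) (T0_lt s)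
    have h23 : ∀ s : T0, ∀ᵐ ω ∂P, ∀ x y : ℝ, ∃ z, M ω x 0 z (s.1 : ℝ) +
        M ω z (s.1 : ℝ) y 1 = M ω x 0 y 1 := fun s => comp_attained hM (T0_pos s) (T0_lt s)
    filter_upwards [ae_all_iff.2 h32, ae_all_iff.2 h23, comp_le hM h0 (zero_lt_one.trans h1),
      comp_le hM zero_lt_one h1] with ω hle hatt k1 k2 K hG
    refine exists_hat hG (continuous_W2 hM h0 h1 ω) (M2_D ω) (B := M ω 0 s₀ 0 s₁) ?_ ?_ ?_
    · intro x y
      rw [M2_D]
      have h3 := k1 0 x 0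
      have h4 := k2 x y 0
      simp only [W2]
      linarith
    · intro s q
      rw [M3_D, M2_D]
      have h3 := hle s q.1 q.2.1 q.2.2
      simp only [W3, W2, cst]
      linarith
    · intro s x y ε hε
      obtain ⟨z, hz⟩ := hatt s x y
      have hc : Continuous fun z' : ℝ => W3 M s₀ s₁ (s.1 : ℝ) ω ((x : ℝ), z', (y : ℝ)) :=
        (continuous_W3 hM h0 h1 (T0_pos s) (T0_lt s) ω).comp (by fun_prop)
      have hopen : IsOpen {z' : ℝ | M2 (D M s₀ s₁ ω) x y - ε <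
          W3 M s₀ s₁ (s.1 : ℝ) ω ((x : ℝ), z', (y : ℝ))} := isOpen_lt continuous_const hc
      have hne : {z' : ℝ | M2 (D M s₀ s₁ ω) x y - ε <
          W3 M s₀ s₁ (s.1 : ℝ) ω ((x : ℝ), z', (y : ℝ))}.Nonempty := by
        refine ⟨z, ?_⟩
        simp only [mem_ofPred_eq]
        rw [M2_D]
        simp only [W3, W2]
        linarith
      obtain ⟨z', hz'⟩ := Rat.denseRange_cast (𝕜 := ℝ) |>.exists_mem_open hopen hne
      refine ⟨z', ?_⟩
      rw [M3_D]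
      exact hz'
  hat_ac K r j := ac_hat hM h0 h1 (contDiff_hatFun K r j) (hasCompactSupport_hatFun K r j)
    (hatFun_nonneg K r j)

/-- the data of a window at the start -/
theorem isData' (hM : IsDirectedLandscape P M) (h1 : 1 < s₁)
    (hψ : ∀ᵐ ω ∂P, ψ ω 0 = 0)
    (hW3 : ∀ b, 0 < b → b < 1 → ∀ᵐ ω ∂P, ∀ p : ℝ × ℝ, p ≠ (ψ ω b, ψ ω 1) →
      M ω 0 0 p.1 b + M ω p.1 b p.2 1 + M ω p.2 1 0 s₁ <
        M ω 0 0 (ψ ω b) b + M ω (ψ ω b) b (ψ ω 1) 1 + M ω (ψ ω 1) 1 0 s₁)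
    (hW2 : ∀ᵐ ω ∂P, ∀ y, y ≠ ψ ω 1 →
      M ω 0 0 y 1 + M ω y 1 0 s₁ < M ω 0 0 (ψ ω 1) 1 + M ω (ψ ω 1) 1 0 s₁) :
    IsData P (fun _ _ _ _ => 0) hatFun (D' M s₁) (inc ψ) := by
  have g3 : ∀ b, 0 < b → b < 1 → ∀ᵐ ω ∂P, ∀ p, p ≠ (0, ψ ω b, ψ ω 1) →
      W3' M s₁ b ω p < W3' M s₁ b ω (0, ψ ω b, ψ ω 1) := by
    intro b hb0 hb1
    filter_upwards [hW3 b hb0 hb1] with ω h p hp
    simp only [W3', abs_zero, neg_zero, zero_add]
    by_cases hp2 : p.2 = (ψ ω b, ψ ω 1)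
    · have hp1 : p.1 ≠ 0 := by
        intro h2
        exact hp (Prod.ext h2 hp2)
      have h3 : 0 < |p.1| := abs_pos.2 hp1
      rw [hp2]
      linarith
    · have h3 := h p.2 hp2
      have h4 : 0 ≤ |p.1| := abs_nonneg _
      linarith
  have g2 : ∀ᵐ ω ∂P, ∀ p, p ≠ (0, ψ ω 1) → W2' M s₁ ω p < W2' M s₁ ω (0, ψ ω 1) := by
    filter_upwards [hW2] with ω h p hp
    simp only [W2', abs_zero, neg_zero, zero_add]
    by_cases hp2 : p.2 = ψ ω 1
    · have hp1 : p.1 ≠ 0 := by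
        intro h2
        exact hp (Prod.ext h2 hp2)
      have h3 : 0 < |p.1| := abs_pos.2 hp1
      rw [hp2]
      linarith
    · have h3 := h p.2 hp2
      have h4 : 0 ≤ |p.1| := abs_nonneg _
      linarith
  refine ⟨measurable_D' hM h1, ?_, ?_, ?_, ?_⟩
  · have h : ∀ s : T0, ∀ᵐ ω ∂P, Psi id (D' M s₁ ω) s = inc ψ ω s := by
      intro s
      filter_upwards [g3 _ (T0_pos s) (T0_lt s), hψ] with ω hω hω0
      obtain ⟨n₀, hn₀⟩ := exists_nat_ge (max |ψ ω (s.1 : ℝ)| |ψ ω 1|)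
      have hc := continuous_W3' hM h1 (T0_pos s) (T0_lt s) ω
      have key := PsiE_eq (κ := id) (n₀ := n₀) hc (p := (0, ψ ω (s.1 : ℝ), ψ ω 1)) hω
        (fun n hn => by
          have hn' : (n₀ : ℝ) ≤ n := by exact_mod_cast hn
          have h1 := hn₀.trans hn'
          rw [max_le_iff] at h1
          refine ⟨?_, h1⟩
          rw [abs_zero]
          exact Nat.cast_nonneg _) (M3_D' ω s)
      unfold Psi
      rw [key, EReal.toReal_coe]
      simp only [inc, hω0]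
    filter_upwards [ae_all_iff.2 h] with ω hω
    exact funext hω
  · have h : ∀ s : T0, ∀ᵐ ω ∂P, ∀ K : ℕ, |ψ ω 1| < K →
        Psi (fun _ => K) (D' M s₁ ω) s = inc ψ ω s := by
      intro s
      filter_upwards [g3 _ (T0_pos s) (T0_lt s), hψ] with ω hω hω0 K hK2
      obtain ⟨n₀, hn₀⟩ := exists_nat_ge |ψ ω (s.1 : ℝ)|
      have hc := continuous_W3' hM h1 (T0_pos s) (T0_lt s) ω
      have key := PsiE_eq (κ := fun _ => K) (n₀ := n₀) hc
        (p := (0, ψ ω (s.1 : ℝ), ψ ω 1)) hω (fun n hn => by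
          have hn' : (n₀ : ℝ) ≤ n := by exact_mod_cast hn
          refine ⟨?_, hn₀.trans hn', hK2.le⟩
          rw [abs_zero]
          exact Nat.cast_nonneg _) (M3_D' ω s)
      unfold Psi
      rw [key, EReal.toReal_coe]
      simp only [inc, hω0]
    filter_upwards [ae_all_iff.2 h, g2] with ω hω hω2
    obtain ⟨K, hK⟩ := exists_nat_gt |ψ ω 1|
    have hK0 : |(0 : ℝ)| < K := by
      rw [abs_zero]
      exact lt_of_le_of_lt (abs_nonneg _) hK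
    refine ⟨K, ?_, funext fun s => hω s K hK⟩
    exact mem_G (continuous_W2' hM h1 ω) (M2_D' ω) (p := (0, ψ ω 1)) hω2 hK0 hK
  · have h32 : ∀ s : T0, ∀ᵐ ω ∂P, ∀ x z y : ℝ, M ω x 0 z (s.1 : ℝ) +
        M ω z (s.1 : ℝ) y 1 ≤ M ω x 0 y 1 := fun s => comp_le hM (T0_pos s) (T0_lt s)
    have h23 : ∀ s : T0, ∀ᵐ ω ∂P, ∀ x y : ℝ, ∃ z, M ω x 0 z (s.1 : ℝ) +
        M ω z (s.1 : ℝ) y 1 = M ω x 0 y 1 := fun s => comp_attained hM (T0_pos s) (T0_lt s)
    filter_upwards [ae_all_iff.2 h32, ae_all_iff.2 h23,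
      comp_le hM zero_lt_one h1] with ω hle hatt k2 K hG
    refine exists_hat_start hG (continuous_W2' hM h1 ω) (M2_D' ω) (B := M ω 0 0 0 s₁)
      ?_ ?_ ?_ ?_
    · intro x y
      rw [M2_D']
      have h4 := k2 0 y 0
      have h5 : 0 ≤ |(x : ℝ)| := abs_nonneg _
      simp only [W2']
      linarith
    · intro x x1 y hx
      rw [M2_D', M2_D']
      have h5 : |(x1 : ℝ)| ≤ |(x : ℝ)| := by exact_mod_cast hx
      simp only [W2']
      linarith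
    · intro s q
      rw [M3_D', M2_D']
      have h3 := hle s 0 q.2.1 q.2.2
      simp only [W3', W2', cst]
      linarith
    · intro s x y ε hε
      obtain ⟨z, hz⟩ := hatt s 0 y
      have hc : Continuous fun z' : ℝ => W3' M s₁ (s.1 : ℝ) ω ((x : ℝ), z', (y : ℝ)) :=
        (continuous_W3' hM h1 (T0_pos s) (T0_lt s) ω).comp (by fun_prop)
      have hopen : IsOpen {z' : ℝ | M2 (D' M s₁ ω) x y - ε <
          W3' M s₁ (s.1 : ℝ) ω ((x : ℝ), z', (y : ℝ))} := isOpen_lt continuous_const hc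
      have hne : {z' : ℝ | M2 (D' M s₁ ω) x y - ε <
          W3' M s₁ (s.1 : ℝ) ω ((x : ℝ), z', (y : ℝ))}.Nonempty := by
        refine ⟨z, ?_⟩
        simp only [mem_ofPred_eq]
        rw [M2_D']
        simp only [W3', W2']
        linarith
      obtain ⟨z', hz'⟩ := Rat.denseRange_cast (𝕜 := ℝ) |>.exists_mem_open hopen hne
      refine ⟨z', ?_⟩
      rw [M3_D']
      exact hz'
  · intro K r j
    exact ac_hat' hM h1 (contDiff_hatFun K r j) (hasCompactSupport_hatFun K r j)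
      (hatFun_nonneg K r j)

end Pool.Agent.H12.GW
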