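import Pool.Agent.H12.GW.Defs
import Pool.Agent.H12.GW.Good

/-!
# Windows of the geodesic
-/

open MeasureTheory ProbabilityTheory Filter Topology Set
open Pool.Agent.H37.DL
open Pool.Agent.H11.DL6 (comp_le comp_attained one_time two_time_lt three_time_lt)

namespace Pool.Agent.H12.GW

variable {Ω : Type*} [MeasurableSpace Ω] {P : Measure Ω} [IsProbabilityMeasure P]
  {L : Ω → ℝ → ℝ → ℝ → ℝ → ℝ} {Pi : Ω → C(unitInterval, ℝ)} {a b c d : ℝ}

theorem continuous_win (a b : ℝ) : Continuous (win a b) := by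
  apply ContinuousMap.continuous_of_continuous_uncurry
  show Continuous fun p : C(unitInterval, ℝ) × unitInterval =>
    ((b - a) ^ (2 / 3 : ℝ))⁻¹ * (ext p.1 (a + (b - a) * p.2) - ext p.1 a)
  unfold Pool.Agent.H37.DL.ext
  fun_prop

omit [IsProbabilityMeasure P] in
theorem measurable_win (hPi : Measurable Pi) (a b : ℝ) : Measurable fun ω => win a b (Pi ω) :=
  (continuous_win a b).measurable.comp hPi

/-- the rescaled path -/
noncomputable def psi (Pi : Ω → C(unitInterval, ℝ)) (a b : ℝ) (ω : Ω) (s : ℝ) : ℝ :=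
  ((b - a) ^ (2 / 3 : ℝ))⁻¹ * ext (Pi ω) (a + (b - a) * s)

omit [MeasurableSpace Ω] in
theorem psi_mul (hab : a < b) (ω : Ω) (s : ℝ) :
    (b - a) ^ (2 / 3 : ℝ) * psi Pi a b ω s = ext (Pi ω) (a + (b - a) * s) := by
  have h : (b - a) ^ (2 / 3 : ℝ) ≠ 0 := (Real.rpow_pos_of_pos (sub_pos.2 hab) _).ne'
  unfold psi
  rw [mul_inv_cancel_left₀ h]

/-- a point at which the rescaled path is -/
theorem eq_psi (hab : a < b) {ω : Ω} {s x : ℝ}
    (h : (b - a) ^ (2 / 3 : ℝ) * x = ext (Pi ω) (a + (b - a) * s)) : x = psi Pi a b ω s := by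
  have h0 : (b - a) ^ (2 / 3 : ℝ) ≠ 0 := (Real.rpow_pos_of_pos (sub_pos.2 hab) _).ne'
  rw [← psi_mul hab] at h
  exact mul_left_cancel₀ h0 h

/-- data of a window inside -/
theorem isData_int (hL : IsDirectedLandscape P L) (hgeo : ∀ᵐ ω ∂P, IsGeodesic (L ω) (Pi ω))
    (ha : 0 < a) (hab : a < b) (hb : b < 1) :
    IsData P hatFun hatFun
      (D (fun ω => resc (L ω) a (b - a)) (-a / (b - a)) ((1 - a) / (b - a)))
      (inc (psi Pi a b)) := by
  have hc : 0 < b - a := sub_pos.2 hab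
  have hM := hL.rescale a hc
  have h3 : 0 < ((b - a) ^ (1 / 3 : ℝ))⁻¹ := inv_pos.2 (Real.rpow_pos_of_pos hc _)
  have e0 : a + (b - a) * (-a / (b - a)) = 0 := by
    field_simp
    ring
  have e1 : a + (b - a) * ((1 - a) / (b - a)) = 1 := by
    field_simp
    ring
  have eb : a + (b - a) * 1 = b := by ring
  have ea : a + (b - a) * 0 = a := by ring
  refine isData hM ?_ ?_ ?_ ?_
  · exact div_neg_of_neg_of_pos (by linarith) hc
  · rw [lt_div_iff₀ hc]
    linarith
  · intro β hβ0 hβ1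
    have k1 : a < a + (b - a) * β := by nlinarith
    have k2 : a + (b - a) * β < b := by nlinarith
    filter_upwards [three_time_lt hL hgeo ha k1 k2 hb] with ω hω p hp
    have h := hω ((b - a) ^ (2 / 3 : ℝ) * p.1, (b - a) ^ (2 / 3 : ℝ) * p.2.1,
      (b - a) ^ (2 / 3 : ℝ) * p.2.2) (by
        intro hcon
        apply hp
        rw [Prod.mk.injEq, Prod.mk.injEq] at hcon
        obtain ⟨g1, g2, g3⟩ := hcon
        refine Prod.ext ?_ (Prod.ext ?_ ?_)
        · exact eq_psi hab (by rw [g1, ea])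
        · exact eq_psi hab g2
        · exact eq_psi hab (by rw [g3, eb]))
    simp only [W3, resc, e0, e1, eb, mul_zero, add_zero, psi_mul hab]
    have h5 := mul_lt_mul_of_pos_left h h3
    simp only at h5
    linarith
  · have k1 : a < b := hab
    filter_upwards [two_time_lt hL hgeo ha hab hb] with ω hω p hp
    have h := hω ((b - a) ^ (2 / 3 : ℝ) * p.1, (b - a) ^ (2 / 3 : ℝ) * p.2) (by
        intro hcon
        apply hp
        rw [Prod.mk.injEq] at hcon
        obtain ⟨g1, g3⟩ := hcon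
        refine Prod.ext ?_ ?_
        · exact eq_psi hab (by rw [g1, ea])
        · exact eq_psi hab (by rw [g3, eb]))
    simp only [W2, resc, e0, e1, eb, mul_zero, add_zero, psi_mul hab]
    have h5 := mul_lt_mul_of_pos_left h h3
    simp only at h5
    linarith

/-- data of a window at the start -/
theorem isData_start (hL : IsDirectedLandscape P L) (hgeo : ∀ᵐ ω ∂P, IsGeodesic (L ω) (Pi ω))
    (hb0 : 0 < b) (hb : b < 1) :
    IsData P (fun _ _ _ _ => 0) hatFun
      (D' (fun ω => resc (L ω) 0 (b - 0)) ((1 - 0) / (b - 0)))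
      (inc (psi Pi 0 b)) := by
  have hc : 0 < b - 0 := sub_pos.2 hb0
  have hM := hL.rescale 0 hc
  have h3 : 0 < ((b - 0) ^ (1 / 3 : ℝ))⁻¹ := inv_pos.2 (Real.rpow_pos_of_pos hc _)
  have e1 : 0 + (b - 0) * ((1 - 0) / (b - 0)) = 1 := by
    field_simp
    ring
  have eb : 0 + (b - 0) * 1 = b := by ring
  have ea : 0 + (b - 0) * 0 = 0 := by ring
  refine isData' hM ?_ ?_ ?_ ?_
  · rw [lt_div_iff₀ hc]
    linarith
  · filter_upwards [hgeo] with ω hω
    unfold psi
    rw [ea, land_ext_zero, hω.1, mul_zero]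
  · intro β hβ0 hβ1
    have k0 : 0 < 0 + (b - 0) * β := by
      have := mul_pos hc hβ0
      linarith
    have k2 : 0 + (b - 0) * β < b := by nlinarith
    filter_upwards [two_time_lt hL hgeo k0 k2 hb] with ω hω p hp
    have h := hω ((b - 0) ^ (2 / 3 : ℝ) * p.1, (b - 0) ^ (2 / 3 : ℝ) * p.2) (by
        intro hcon
        apply hp
        rw [Prod.mk.injEq] at hcon
        obtain ⟨g1, g3⟩ := hcon
        refine Prod.ext ?_ ?_
        · exact eq_psi hb0 g1
        · exact eq_psi hb0 (by rw [g3, eb]))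
    simp only [resc, e1, ea, eb, mul_zero, psi_mul hb0]
    have h5 := mul_lt_mul_of_pos_left h h3
    simp only at h5
    linarith
  · filter_upwards [comp_le hL hb0 hb, one_time hL hgeo hb0 hb] with ω h1 h2 y hy
    have hy' : (b - 0) ^ (2 / 3 : ℝ) * y ≠ ext (Pi ω) b := by
      intro hcon
      exact hy (eq_psi hb0 (by rw [hcon, eb]))
    have k1 := h1 0 ((b - 0) ^ (2 / 3 : ℝ) * y) 0
    have k2 := (h2 (ext (Pi ω) b)).2 rfl
    have k3 : L ω 0 0 ((b - 0) ^ (2 / 3 : ℝ) * y) b + L ω ((b - 0) ^ (2 / 3 : ℝ) * y) b 0 1 <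
        L ω 0 0 (ext (Pi ω) b) b + L ω (ext (Pi ω) b) b 0 1 := by
      rw [k2]
      refine lt_of_le_of_ne k1 fun hcon => hy' ?_
      exact (h2 _).1 hcon
    simp only [resc, e1, ea, eb, mul_zero, psi_mul hb0]
    have h5 := mul_lt_mul_of_pos_left k3 h3
    linarith

/-- restriction of a path to the rational times -/
def rho (η : C(unitInterval, ℝ)) (s : T0) : ℝ := η ⟨(s.1 : ℝ), (T0_pos s).le, (T0_lt s).le⟩

theorem measurable_rho : Measurable rho :=
  measurable_pi_lambda _ fun _ =>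
    (continuous_eval_const (F := C(unitInterval, ℝ)) _).measurable

theorem rho_injective : Function.Injective rho := by
  intro η η' h
  have hd : Dense (range fun s : T0 =>
      (⟨(s.1 : ℝ), (T0_pos s).le, (T0_lt s).le⟩ : unitInterval)) := by
    rw [dense_iff_inter_open]
    rintro U hU ⟨a, ha⟩
    obtain ⟨ε, hε, hball⟩ := Metric.isOpen_iff.1 hU a ha
    have ha1 := a.2.1
    have ha2 := a.2.2
    have hlt : max 0 ((a : ℝ) - ε) < min 1 ((a : ℝ) + ε) := by
      rw [max_lt_iff, lt_min_iff, lt_min_iff]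
      refine ⟨⟨by norm_num, by linarith⟩, by linarith, by linarith⟩
    obtain ⟨r, hr1, hr2⟩ := exists_rat_btwn hlt
    rw [max_lt_iff] at hr1
    rw [lt_min_iff] at hr2
    have hr0 : 0 < r := by exact_mod_cast hr1.1
    have hrh : r < 1 := by exact_mod_cast hr2.1
    refine ⟨⟨(r : ℝ), hr1.1.le, hr2.1.le⟩, hball ?_, ⟨⟨r, hr0, hrh⟩, rfl⟩⟩
    rw [Metric.mem_ball, Subtype.dist_eq, Real.dist_eq, abs_lt]
    constructor
    · linarith [hr1.2]
    · linarith [hr2.2]
  refine ContinuousMap.ext fun a => ?_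
  have := Continuous.ext_on hd η.continuous η'.continuous (by
    rintro _ ⟨s, rfl⟩
    exact congrFun h s)
  exact congrFun this a

theorem measurableEmbedding_rho : MeasurableEmbedding rho :=
  measurable_rho.measurableEmbedding rho_injective

omit [MeasurableSpace Ω] in
theorem rho_win (ω : Ω) : rho (win a b (Pi ω)) = inc (psi Pi a b) ω := by
  funext s
  show ((b - a) ^ (2 / 3 : ℝ))⁻¹ * (ext (Pi ω) (a + (b - a) * s.1) - ext (Pi ω) a) =
    ((b - a) ^ (2 / 3 : ℝ))⁻¹ * ext (Pi ω) (a + (b - a) * s.1) -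
      ((b - a) ^ (2 / 3 : ℝ))⁻¹ * ext (Pi ω) (a + (b - a) * 0)
  rw [mul_zero, add_zero, mul_sub]

omit [IsProbabilityMeasure P] in
/-- transfer to the space of continuous functions -/
theorem ac_of_null (hPi : Measurable Pi)
    (h : ∀ B : Set (T0 → ℝ), MeasurableSet B → (∀ᵐ ω ∂P, inc (psi Pi c d) ω ∉ B) →
      ∀ᵐ ω ∂P, inc (psi Pi a b) ω ∉ B) :
    P.map (fun ω => win a b (Pi ω)) ≪ P.map (fun ω => win c d (Pi ω)) := by
  refine Measure.AbsolutelyContinuous.mk fun A hA h0 => ?_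
  have hmt := measurable_win hPi a b
  have hmu := measurable_win hPi c d
  have hB : MeasurableSet (rho '' A) := measurableEmbedding_rho.measurableSet_image.2 hA
  have hiff : ∀ (a b : ℝ) (ω : Ω), win a b (Pi ω) ∈ A ↔ inc (psi Pi a b) ω ∈ rho '' A := by
    intro a b ω
    rw [← rho_win, rho_injective.mem_set_image]
  rw [Measure.map_apply hmu hA, measure_eq_zero_iff_ae_notMem] at h0
  rw [Measure.map_apply hmt hA, measure_eq_zero_iff_ae_notMem]
  have h1 : ∀ᵐ ω ∂P, inc (psi Pi c d) ω ∉ rho '' A := by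
    filter_upwards [h0] with ω h2
    rw [← hiff]
    exact h2
  filter_upwards [h _ hB h1] with ω h2
  rw [mem_preimage, hiff]
  exact h2

/-- two windows inside -/
theorem ac_int (hL : IsDirectedLandscape P L) (hPi : Measurable Pi)
    (hgeo : ∀ᵐ ω ∂P, IsGeodesic (L ω) (Pi ω)) (ha : 0 < a) (hab : a < b) (hb : b < 1)
    (hc : 0 < c) (hcd : c < d) (hd : d < 1) :
    P.map (fun ω => win a b (Pi ω)) ≪ P.map (fun ω => win c d (Pi ω)) := by
  have h1 : 0 < b - a := sub_pos.2 hab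
  have h2 : 0 < d - c := sub_pos.2 hcd
  refine ac_of_null hPi fun B hB h0 => null_transfer (isData_int hL hgeo ha hab hb)
    (isData_int hL hgeo hc hcd hd) (fun K => ?_) hB h0
  refine ac_truncE (hL.rescale a h1) (hL.rescale c h2) ?_ ?_ ?_ ?_ K
  · exact div_neg_of_neg_of_pos (by linarith) h1
  · exact div_neg_of_neg_of_pos (by linarith) h2
  · rw [lt_div_iff₀ h1]
    linarith
  · rw [lt_div_iff₀ h2]
    linarith

/-- two windows at the start -/
theorem ac_start (hL : IsDirectedLandscape P L) (hPi : Measurable Pi)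
    (hgeo : ∀ᵐ ω ∂P, IsGeodesic (L ω) (Pi ω)) (hb0 : 0 < b) (hb : b < 1)
    (hd0 : 0 < d) (hd : d < 1) :
    P.map (fun ω => win 0 b (Pi ω)) ≪ P.map (fun ω => win 0 d (Pi ω)) := by
  have h1 : 0 < b - 0 := sub_pos.2 hb0
  have h2 : 0 < d - 0 := sub_pos.2 hd0
  refine ac_of_null hPi fun B hB h0 => null_transfer (isData_start hL hgeo hb0 hb)
    (isData_start hL hgeo hd0 hd) (fun K => ?_) hB h0
  refine ac_truncE' (hL.rescale 0 h1) (hL.rescale 0 h2) ?_ ?_ K
  · rw [lt_div_iff₀ h1]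
    linarith
  · rw [lt_div_iff₀ h2]
    linarith

end Pool.Agent.H12.GW
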