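import Pool.Agent.H37.DL.SheetSym
import Pool.Agent.H12.GW.EBas
import Pool.Agent.H12.GW.Win

/-!
# Time reversal of the directed landscape and of its geodesic
-/

open MeasureTheory ProbabilityTheory Filter Topology Set
open Pool.Agent.H37.DL

namespace Pool.Agent.H12.GW

variable {Ω : Type*} [MeasurableSpace Ω] {P : Measure Ω} [IsProbabilityMeasure P]
  {L : Ω → ℝ → ℝ → ℝ → ℝ → ℝ} {Pi : Ω → C(unitInterval, ℝ)}

/-- a function of two points of space-time, with time reversed and space reflected -/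
def rvl (l : ℝ → ℝ → ℝ → ℝ → ℝ) (x s y t : ℝ) : ℝ := l (-y) (1 - t) (-x) (1 - s)

/-- the reversed path -/
def rvg (γ : ℝ → ℝ) (s : ℝ) : ℝ := -γ (1 - s)

theorem rvl_rvl (l : ℝ → ℝ → ℝ → ℝ → ℝ) : rvl (rvl l) = l := by
  funext x s y t
  simp [rvl]

theorem rvg_rvg (γ : ℝ → ℝ) : rvg (rvg γ) = γ := by
  funext s
  simp [rvg]

/-- reversal of an increasing sequence -/
theorem exists_rev (n : ℕ) {τ : ℕ → ℝ} (hτ : StrictMono τ) :
    ∃ σ : ℕ → ℝ, StrictMono σ ∧ ∀ j, j ≤ n → σ j = 1 - τ (n - j) := by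
  refine ⟨fun j => if j ≤ n then 1 - τ (n - j) else 1 - τ 0 + ((j : ℝ) - n), ?_, ?_⟩
  · refine strictMono_nat_of_lt_succ fun j => ?_
    by_cases h1 : j + 1 ≤ n
    · have h2 : j ≤ n := by omega
      simp only [h1, h2, if_true]
      have h3 : τ (n - (j + 1)) < τ (n - j) := hτ (by omega)
      linarith
    · by_cases h2 : j ≤ n
      · have h3 : j = n := by omega
        subst h3
        simp
      · simp only [h1, h2, if_false]
        push_cast
        linarith
  · intro j hj
    simp [hj]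

theorem lengthSums_subset (l : ℝ → ℝ → ℝ → ℝ → ℝ) (γ : ℝ → ℝ) :
    lengthSums l γ 0 1 ⊆ lengthSums (rvl l) (rvg γ) 0 1 := by
  rintro r ⟨k, τ, hτ, h0, h1, rfl⟩
  obtain ⟨σ, hσ, hσe⟩ := exists_rev (k + 1) hτ
  refine ⟨k, σ, hσ, ?_, ?_, ?_⟩
  · rw [hσe 0 (by omega)]
    simp [h1]
  · rw [hσe (k + 1) le_rfl]
    simp [h0]
  · rw [← Finset.sum_range_reflect]
    refine Finset.sum_congr rfl fun j hj => ?_
    have hj' : j < k + 1 := Finset.mem_range.1 hj
    have e1 : σ j = 1 - τ (k + 1 - j) := hσe j hj'.le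
    have e2 : σ (j + 1) = 1 - τ (k - j) := by
      rw [hσe (j + 1) (by omega)]
      congr 2
      omega
    have e3 : k + 1 - 1 - j = k - j := by omega
    have e4 : k - j + 1 = k + 1 - j := by omega
    rw [e3, e4, e1, e2]
    simp [rvl, rvg]

theorem lengthSums_rv (l : ℝ → ℝ → ℝ → ℝ → ℝ) (γ : ℝ → ℝ) :
    lengthSums (rvl l) (rvg γ) 0 1 = lengthSums l γ 0 1 := by
  refine Subset.antisymm ?_ (lengthSums_subset l γ)
  have h := lengthSums_subset (rvl l) (rvg γ)
  rwa [rvl_rvl, rvg_rvg] at h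

/-- the reversed landscape is a directed landscape -/
theorem landscape_rv (hL : IsDirectedLandscape P L) :
    IsDirectedLandscape P fun ω => rvl (L ω) where
  cont ω := by
    have hc : Continuous fun q : ℝ × ℝ × ℝ × ℝ =>
        ((-q.2.2.1, 1 - q.2.2.2, -q.1, 1 - q.2.1) : ℝ × ℝ × ℝ × ℝ) := by fun_prop
    refine (hL.cont ω).comp hc.continuousOn ?_
    intro q hq
    have hq' : q.2.1 < q.2.2.2 := hq
    show 1 - q.2.2.2 < 1 - q.2.1
    linarith
  law s t hst := by
    have h := (hL.law (1 - t) (1 - s) (by linarith)).reflect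
    have e : 1 - s - (1 - t) = t - s := by ring
    rw [e] at h
    have e2 : (fun ω (p : ℝ × ℝ) => ((t - s) ^ (1 / 3 : ℝ))⁻¹ *
        rvl (L ω) ((t - s) ^ (2 / 3 : ℝ) * p.1) s ((t - s) ^ (2 / 3 : ℝ) * p.2) t) =
        fun ω (p : ℝ × ℝ) => ((t - s) ^ (1 / 3 : ℝ))⁻¹ *
          L ω ((t - s) ^ (2 / 3 : ℝ) * (-p.2, -p.1).1) (1 - t)
            ((t - s) ^ (2 / 3 : ℝ) * (-p.2, -p.1).2) (1 - s) := by
      funext ω p
      simp only [rvl, mul_neg]
    rw [e2]
    exact h
  indep k τ hτ := by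
    obtain ⟨σ, hσ, hσe⟩ := exists_rev k hτ
    have h := hL.indep k σ hσ
    have hg : Measurable fun (f : ℝ × ℝ → ℝ) (p : ℝ × ℝ) => f (-p.2, -p.1) :=
      measurable_pi_lambda _ fun p => measurable_pi_apply _
    have h2 := (h.comp (fun _ (f : ℝ × ℝ → ℝ) (p : ℝ × ℝ) => f (-p.2, -p.1))
      (fun _ => hg)).precomp (Fin.rev_injective (n := k))
    have e : (fun (i : Fin k) ω (p : ℝ × ℝ) => rvl (L ω) p.1 (τ i) p.2 (τ (i + 1))) =
        fun (i : Fin k) => (fun (f : ℝ × ℝ → ℝ) (p : ℝ × ℝ) => f (-p.2, -p.1)) ∘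
          (fun ω (p : ℝ × ℝ) => L ω p.1 (σ (Fin.rev i : Fin k)) p.2
            (σ ((Fin.rev i : Fin k) + 1))) := by
      funext i ω p
      have hi := i.2
      have e1 : σ ((Fin.rev i : Fin k) : ℕ) = 1 - τ (i + 1) := by
        rw [Fin.val_rev, hσe _ (by omega)]
        congr 2
        omega
      have e2 : σ (((Fin.rev i : Fin k) : ℕ) + 1) = 1 - τ i := by
        rw [Fin.val_rev, hσe _ (by omega)]
        congr 2
        omega
      simp only [Function.comp_apply, rvl, e1, e2]
    rw [e]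
    exact h2
  comp r s t hrs hst := by
    filter_upwards [hL.comp (1 - t) (1 - s) (1 - r) (by linarith) (by linarith)] with ω h x y
    have h1 := h (-y) (-x)
    refine ⟨?_, ?_⟩
    · obtain ⟨z, hz⟩ := h1.1
      refine ⟨-z, ?_⟩
      simp only [rvl, neg_neg]
      rw [add_comm]
      exact hz
    · rintro _ ⟨z, rfl⟩
      have h2 := h1.2 ⟨-z, rfl⟩
      simp only [rvl]
      rw [add_comm]
      exact h2

/-- the reversed path -/
noncomputable def rvP (π : C(unitInterval, ℝ)) : C(unitInterval, ℝ) where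
  toFun s := -π (unitInterval.symm s)

theorem continuous_rvP : Continuous rvP := by
  apply ContinuousMap.continuous_of_continuous_uncurry
  show Continuous fun p : C(unitInterval, ℝ) × unitInterval => -p.1 (unitInterval.symm p.2)
  fun_prop

theorem ext_rvP (π : C(unitInterval, ℝ)) : ext (rvP π) = rvg (ext π) := by
  funext s
  show -π (unitInterval.symm (Set.projIcc 0 1 zero_le_one s)) =
    -π (Set.projIcc 0 1 zero_le_one (1 - s))
  congr 2
  apply Subtype.ext
  rw [unitInterval.coe_symm_eq, Set.coe_projIcc, Set.coe_projIcc]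
  rcases le_total s 0 with h | h
  · rw [min_eq_right (by linarith), max_eq_left h, min_eq_left (by linarith),
      max_eq_right zero_le_one, sub_zero]
  · rcases le_total s 1 with h' | h'
    · rw [min_eq_right h', max_eq_right h, min_eq_right (by linarith), max_eq_right (by linarith)]
    · rw [min_eq_left h', max_eq_right zero_le_one, min_eq_right (by linarith),
        max_eq_left (by linarith), sub_self]

theorem geodesic_rv {l : ℝ → ℝ → ℝ → ℝ → ℝ} {π : C(unitInterval, ℝ)} (h : IsGeodesic l π) :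
    IsGeodesic (rvl l) (rvP π) := by
  obtain ⟨h0, h1, h2⟩ := h
  refine ⟨?_, ?_, ?_⟩
  · show -π (unitInterval.symm 0) = 0
    rw [unitInterval.symm_zero, h1, neg_zero]
  · show -π (unitInterval.symm 1) = 0
    rw [unitInterval.symm_one, h0, neg_zero]
  · rw [ext_rvP, lengthSums_rv]
    have e : rvl l 0 0 0 1 = l 0 0 0 1 := by simp [rvl]
    rw [e]
    exact h2

theorem rvP_rvP (π : C(unitInterval, ℝ)) : rvP (rvP π) = π := by
  ext s
  show - -π (unitInterval.symm (unitInterval.symm s)) = π s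
  rw [unitInterval.symm_symm, neg_neg]

/-- reversal of the increments over a window -/
def rvN (g : C(unitInterval, ℝ)) : C(unitInterval, ℝ) where
  toFun s := g 1 - g (unitInterval.symm s)

theorem continuous_rvN : Continuous rvN := by
  apply ContinuousMap.continuous_of_continuous_uncurry
  show Continuous fun p : C(unitInterval, ℝ) × unitInterval => p.1 1 - p.1 (unitInterval.symm p.2)
  fun_prop

theorem rvN_win (π : C(unitInterval, ℝ)) (a b : ℝ) :
    rvN (win a b π) = win (1 - b) (1 - a) (rvP π) := by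
  ext s
  have e : ext (rvP π) = rvg (ext π) := ext_rvP π
  show ((b - a) ^ (2 / 3 : ℝ))⁻¹ * (ext π (a + (b - a) * (1 : unitInterval)) - ext π a) -
    ((b - a) ^ (2 / 3 : ℝ))⁻¹ * (ext π (a + (b - a) * (unitInterval.symm s)) - ext π a) =
    ((1 - a - (1 - b)) ^ (2 / 3 : ℝ))⁻¹ *
      (ext (rvP π) (1 - b + (1 - a - (1 - b)) * s) - ext (rvP π) (1 - b))
  rw [e]
  unfold rvg
  rw [unitInterval.coe_symm_eq]
  have e1 : 1 - a - (1 - b) = b - a := by ring
  have e2 : a + (b - a) * ((1 : unitInterval) : ℝ) = b := by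
    rw [Set.Icc.coe_one]
    ring
  have e3 : 1 - (1 - b + (b - a) * (s : ℝ)) = a + (b - a) * (1 - s) := by ring
  have e4 : 1 - (1 - b) = b := by ring
  rw [e1, e2, e3, e4]
  ring

theorem map_rvN {Pi : Ω → C(unitInterval, ℝ)} (hPi : Measurable Pi) (a b : ℝ) :
    (P.map fun ω => win a b (Pi ω)).map rvN =
      P.map fun ω => win (1 - b) (1 - a) (rvP (Pi ω)) := by
  rw [Measure.map_map continuous_rvN.measurable (measurable_win hPi _ _)]
  congr 1
  funext ω
  exact rvN_win (Pi ω) a b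

end Pool.Agent.H12.GW
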