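import Pool.Agent.H12.GW.Sing2
import Pool.Agent.H12.GW.Rev

/-!
# Classification of the windows of the geodesic
-/

open MeasureTheory ProbabilityTheory Filter Topology Set
open Pool.Agent.H37.DL

namespace Pool.Agent.H12.GW

variable {Ω : Type*} [MeasurableSpace Ω] {P : Measure Ω} [IsProbabilityMeasure P]
  {L : Ω → ℝ → ℝ → ℝ → ℝ → ℝ} {Pi : Ω → C(unitInterval, ℝ)} {a b c d : ℝ}

/-- the first half of a window -/
noncomputable def half (g : C(unitInterval, ℝ)) : C(unitInterval, ℝ) where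
  toFun s := ((1 / 2 : ℝ) ^ (2 / 3 : ℝ))⁻¹ *
    g ⟨s / 2, div_nonneg s.2.1 (by norm_num), by linarith [s.2.2]⟩

theorem continuous_half : Continuous half := by
  apply ContinuousMap.continuous_of_continuous_uncurry
  show Continuous fun p : C(unitInterval, ℝ) × unitInterval => ((1 / 2 : ℝ) ^ (2 / 3 : ℝ))⁻¹ *
    p.1 ⟨p.2 / 2, div_nonneg p.2.2.1 (by norm_num), by linarith [p.2.2.2]⟩
  fun_prop

theorem half_win (hab : a < b) (π : C(unitInterval, ℝ)) :
    half (win a b π) = win a (a + (b - a) / 2) π := by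
  ext s
  show ((1 / 2 : ℝ) ^ (2 / 3 : ℝ))⁻¹ * (((b - a) ^ (2 / 3 : ℝ))⁻¹ *
    (ext π (a + (b - a) * (s / 2)) - ext π a)) =
    ((a + (b - a) / 2 - a) ^ (2 / 3 : ℝ))⁻¹ *
      (ext π (a + (a + (b - a) / 2 - a) * s) - ext π a)
  have e1 : a + (b - a) / 2 - a = 1 / 2 * (b - a) := by ring
  have e2 : a + (b - a) * ((s : ℝ) / 2) = a + 1 / 2 * (b - a) * s := by ring
  rw [e1, e2, Real.mul_rpow (by norm_num) (sub_pos.2 hab).le, mul_inv]
  ring

omit [IsProbabilityMeasure P] in
theorem map_half (hPi : Measurable Pi) (hab : a < b) :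
    (P.map fun ω => win a b (Pi ω)).map half =
      P.map fun ω => win a (a + (b - a) / 2) (Pi ω) := by
  rw [Measure.map_map continuous_half.measurable (measurable_win hPi _ _)]
  congr 1
  funext ω
  exact half_win hab (Pi ω)

/-- a window at the start and a window not at the start -/
theorem sing_left (hL : IsDirectedLandscape P L) (hPi : Measurable Pi)
    (hgeo : ∀ᵐ ω ∂P, IsGeodesic (L ω) (Pi ω)) (hb0 : 0 < b) (hb : b ≤ 1)
    (hc : 0 < c) (hcd : c < d) (hd : d ≤ 1) :
    P.map (fun ω => win 0 b (Pi ω)) ⟂ₘ P.map (fun ω => win c d (Pi ω)) := by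
  refine sing_of_map continuous_half.measurable ?_
  rw [map_half hPi hb0, map_half hPi hcd]
  have hr : 0 < b / 2 := by linarith
  have h1 := sing_start (r := b / 2) (u := 1 / 4) hL hPi hgeo hr (by norm_num) (by linarith)
  have h2 := sing_win hPi hr h1
  have e : (0 : ℝ) + b / 2 = 0 + (b - 0) / 2 := by ring
  rw [e] at h2
  exact (h2.mono_ac (ac_int hL hPi hgeo hc (by linarith) (by linarith) (by norm_num)
    (by linarith) (by linarith)) Measure.AbsolutelyContinuous.rfl).symm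

omit [IsProbabilityMeasure P] in
theorem measurable_rvPi (hPi : Measurable Pi) : Measurable fun ω => rvP (Pi ω) :=
  continuous_rvP.measurable.comp hPi

omit [IsProbabilityMeasure P] in
theorem geo_rv (hgeo : ∀ᵐ ω ∂P, IsGeodesic (L ω) (Pi ω)) :
    ∀ᵐ ω ∂P, IsGeodesic (rvl (L ω)) (rvP (Pi ω)) := by
  filter_upwards [hgeo] with ω hω
  exact geodesic_rv hω

/-- a window at the end and a window not at the end -/
theorem sing_right (hL : IsDirectedLandscape P L) (hPi : Measurable Pi)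
    (hgeo : ∀ᵐ ω ∂P, IsGeodesic (L ω) (Pi ω)) (ha0 : 0 ≤ a) (ha : a < 1)
    (hc : 0 ≤ c) (hcd : c < d) (hd : d < 1) :
    P.map (fun ω => win a 1 (Pi ω)) ⟂ₘ P.map (fun ω => win c d (Pi ω)) := by
  refine sing_of_map continuous_rvN.measurable ?_
  rw [map_rvN hPi, map_rvN hPi, sub_self]
  exact sing_left (landscape_rv hL) (measurable_rvPi hPi) (geo_rv hgeo) (by linarith)
    (by linarith) (by linarith) (by linarith) (by linarith)

/-- two windows at the end -/
theorem ac_end (hL : IsDirectedLandscape P L) (hPi : Measurable Pi)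
    (hgeo : ∀ᵐ ω ∂P, IsGeodesic (L ω) (Pi ω)) (ha0 : 0 < a) (ha : a < 1)
    (hc0 : 0 < c) (hc : c < 1) :
    P.map (fun ω => win a 1 (Pi ω)) ≪ P.map (fun ω => win c 1 (Pi ω)) := by
  have key : ∀ x : ℝ, (P.map fun ω => win 0 (1 - x) (rvP (Pi ω))).map rvN =
      P.map fun ω => win x 1 (Pi ω) := by
    intro x
    rw [map_rvN (measurable_rvPi hPi), sub_zero, sub_sub_cancel]
    simp only [rvP_rvP]
  rw [← key a, ← key c]
  exact (ac_start (landscape_rv hL) (measurable_rvPi hPi) (geo_rv hgeo) (by linarith)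
    (by linarith) (by linarith) (by linarith)).map continuous_rvN.measurable

/-- windows of the same kind -/
theorem ac_same (hL : IsDirectedLandscape P L) (hPi : Measurable Pi)
    (hgeo : ∀ᵐ ω ∂P, IsGeodesic (L ω) (Pi ω)) (ha : 0 ≤ a) (hab : a < b) (hb : b ≤ 1)
    (hc : 0 ≤ c) (hcd : c < d) (hd : d ≤ 1) (h0 : a = 0 ↔ c = 0) (h1 : b = 1 ↔ d = 1) :
    P.map (fun ω => win a b (Pi ω)) ≪ P.map (fun ω => win c d (Pi ω)) := by
  by_cases ha0 : a = 0
  · have hc0 := h0.1 ha0
    subst ha0 hc0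
    by_cases hb1 : b = 1
    · have hd1 := h1.1 hb1
      subst hb1 hd1
      exact Measure.AbsolutelyContinuous.rfl
    · exact ac_start hL hPi hgeo hab (lt_of_le_of_ne hb hb1) hcd
        (lt_of_le_of_ne hd fun h => hb1 (h1.2 h))
  · have ha' : 0 < a := lt_of_le_of_ne ha (Ne.symm ha0)
    have hc' : 0 < c := lt_of_le_of_ne hc fun h => ha0 (h0.2 h.symm)
    by_cases hb1 : b = 1
    · have hd1 := h1.1 hb1
      subst hb1 hd1
      exact ac_end hL hPi hgeo ha' hab hc' hcd
    · exact ac_int hL hPi hgeo ha' hab (lt_of_le_of_ne hb hb1) hc' hcd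
        (lt_of_le_of_ne hd fun h => hb1 (h1.2 h))

/-- windows of different kinds -/
theorem sing_diff (hL : IsDirectedLandscape P L) (hPi : Measurable Pi)
    (hgeo : ∀ᵐ ω ∂P, IsGeodesic (L ω) (Pi ω)) (ha : 0 ≤ a) (hab : a < b) (hb : b ≤ 1)
    (hc : 0 ≤ c) (hcd : c < d) (hd : d ≤ 1) (h : ¬ ((a = 0 ↔ c = 0) ∧ (b = 1 ↔ d = 1))) :
    P.map (fun ω => win a b (Pi ω)) ⟂ₘ P.map (fun ω => win c d (Pi ω)) := by
  by_cases ha0 : a = 0
  · by_cases hc0 : c = 0
    · by_cases hb1 : b = 1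
      · have hd1 : d ≠ 1 := fun hd1 => h ⟨by simp [ha0, hc0], by simp [hb1, hd1]⟩
        subst hb1
        exact sing_right hL hPi hgeo ha hab hc hcd (lt_of_le_of_ne hd hd1)
      · by_cases hd1 : d = 1
        · subst hd1
          exact (sing_right hL hPi hgeo hc hcd ha hab (lt_of_le_of_ne hb hb1)).symm
        · exact absurd ⟨by simp [ha0, hc0], by simp [hb1, hd1]⟩ h
    · subst ha0
      exact sing_left hL hPi hgeo hab hb (lt_of_le_of_ne hc (Ne.symm hc0)) hcd hd
  · have ha' : 0 < a := lt_of_le_of_ne ha (Ne.symm ha0)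
    by_cases hc0 : c = 0
    · subst hc0
      exact (sing_left hL hPi hgeo hcd hd ha' hab hb).symm
    · by_cases hb1 : b = 1
      · have hd1 : d ≠ 1 := fun hd1 => h ⟨by simp [ha0, hc0], by simp [hb1, hd1]⟩
        subst hb1
        exact sing_right hL hPi hgeo ha hab hc hcd (lt_of_le_of_ne hd hd1)
      · by_cases hd1 : d = 1
        · subst hd1
          exact (sing_right hL hPi hgeo hc hcd ha hab (lt_of_le_of_ne hb hb1)).symm
        · exact absurd ⟨by simp [ha0, hc0], by simp [hb1, hd1]⟩ h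

end Pool.Agent.H12.GW
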