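import Pool.Agent.H12.GW.Psi

/-!
# Approximate maximisers converge to a unique maximiser
-/

open Filter Topology Set

namespace Pool.Agent.H12.GW

/-- a rational triple as a real triple -/
def cst (q : ℚ × ℚ × ℚ) : ℝ × ℝ × ℝ := (q.1, q.2.1, q.2.2)

/-- real box -/
def rbox (K n : ℕ) : Set (ℝ × ℝ × ℝ) := {p | |p.1| ≤ K ∧ |p.2.1| ≤ n ∧ |p.2.2| ≤ K}

theorem isCompact_rbox (K n : ℕ) : IsCompact (rbox K n) := by
  have : rbox K n = Icc (-(K : ℝ)) K ×ˢ (Icc (-(n : ℝ)) n ×ˢ Icc (-(K : ℝ)) K) := by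
    ext p
    simp only [rbox, mem_ofPred_eq, mem_prod, mem_Icc, abs_le]
  rw [this]
  exact isCompact_Icc.prod (isCompact_Icc.prod isCompact_Icc)

theorem cst_mem_rbox {K n : ℕ} {q : ℚ × ℚ × ℚ} (hq : q ∈ box K n) : cst q ∈ rbox K n := by
  obtain ⟨h1, h2, h3⟩ := hq
  refine ⟨?_, ?_, ?_⟩
  · show |(q.1 : ℝ)| ≤ K
    exact_mod_cast h1
  · show |(q.2.1 : ℝ)| ≤ n
    exact_mod_cast h2
  · show |(q.2.2 : ℝ)| ≤ K
    exact_mod_cast h3

theorem exists_rat_near {a : ℕ} {x : ℝ} (hx : |x| ≤ a) {ε : ℝ} (hε : 0 < ε) :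
    ∃ r : ℚ, |r| ≤ a ∧ |(r : ℝ) - x| < ε := by
  rw [abs_le] at hx
  rcases eq_or_lt_of_le hx.2 with h | h
  · refine ⟨a, by rw [abs_of_nonneg (by positivity)], ?_⟩
    rw [h]
    simpa using hε
  · obtain ⟨r, hr1, hr2⟩ := exists_rat_btwn (lt_min h (lt_add_of_pos_right x hε))
    rw [lt_min_iff] at hr2
    refine ⟨r, ?_, ?_⟩
    · rw [abs_le]
      constructor
      · have : (-(a : ℝ)) ≤ r := by linarith
        exact_mod_cast this
      · exact_mod_cast hr2.1.le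
    · rw [abs_lt]
      constructor <;> linarith [hr2.2]

theorem mem_closure_box {K n : ℕ} {p : ℝ × ℝ × ℝ} (hp : p ∈ rbox K n) :
    p ∈ closure (cst '' box K n) := by
  rw [Metric.mem_closure_iff]
  intro ε hε
  obtain ⟨r1, h1, h1'⟩ := exists_rat_near hp.1 hε
  obtain ⟨r2, h2, h2'⟩ := exists_rat_near hp.2.1 hε
  obtain ⟨r3, h3, h3'⟩ := exists_rat_near hp.2.2 hε
  refine ⟨cst (r1, r2, r3), ⟨(r1, r2, r3), ⟨h1, h2, h3⟩, rfl⟩, ?_⟩
  rw [dist_comm, Prod.dist_eq, Prod.dist_eq]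
  simp only [cst, Real.dist_eq]
  exact max_lt h1' (max_lt h2' h3')

/-- rational points near a point of the box have values near the value there -/
theorem exists_box_gt {Ft : ℝ × ℝ × ℝ → ℝ} (hF : Continuous Ft) {K n : ℕ} {p : ℝ × ℝ × ℝ}
    (hp : p ∈ rbox K n) {c : ℝ} (hc : c < Ft p) : ∃ q ∈ box K n, c < Ft (cst q) := by
  have h1 := mem_closure_box hp
  rw [mem_closure_iff] at h1
  obtain ⟨p', h2, q, hq, h3⟩ := h1 {p' | c < Ft p'} (isOpen_lt continuous_const hF) hc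
  exact ⟨q, hq, by rw [h3]; exact h2⟩

theorem appr_subset_nhds {Ft : ℝ × ℝ × ℝ → ℝ} (hF : Continuous Ft) {K n : ℕ} {p : ℝ × ℝ × ℝ}
    (hp : p ∈ rbox K n) (hmax : ∀ p' ∈ rbox K n, p' ≠ p → Ft p' < Ft p) {U : Set (ℝ × ℝ × ℝ)}
    (hU : IsOpen U) (hpU : p ∈ U) :
    ∃ m₀ : ℕ, ∀ m, m₀ ≤ m → ∀ q ∈ appr (fun q => Ft (cst q)) (box K n) m, cst q ∈ U := by
  have hC : IsCompact (rbox K n \ U) := (isCompact_rbox K n).diff hU
  rcases (rbox K n \ U).eq_empty_or_nonempty with h | h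
  · refine ⟨0, fun m _ q hq => ?_⟩
    by_contra hcon
    have : cst q ∈ rbox K n \ U := ⟨cst_mem_rbox hq.1, hcon⟩
    rw [h] at this
    exact this
  · obtain ⟨p1, hp1, hp1'⟩ := hC.exists_isMaxOn h hF.continuousOn
    have hlt : Ft p1 < Ft p := hmax p1 hp1.1 fun h => hp1.2 (h ▸ hpU)
    set gap := Ft p - Ft p1 with hgap
    have hgap0 : 0 < gap := sub_pos.2 hlt
    obtain ⟨q', hq', hq''⟩ := exists_box_gt hF hp (c := Ft p - gap / 2) (by linarith)
    obtain ⟨m₀, hm₀⟩ := exists_nat_one_div_lt (half_pos hgap0)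
    refine ⟨m₀, fun m hm q hq => ?_⟩
    by_contra hcon
    have hmc : 1 / ((m : ℝ) + 1) < gap / 2 := by
      refine lt_of_le_of_lt ?_ hm₀
      have : (m₀ : ℝ) ≤ m := by exact_mod_cast hm
      exact one_div_le_one_div_of_le (by positivity) (by linarith)
    have h1 := hq.2 q' hq'
    have h2 : Ft (cst q) ≤ Ft p1 := hp1' ⟨cst_mem_rbox hq.1, hcon⟩
    simp only at h1
    linarith

theorem appr_nonempty {Ft : ℝ × ℝ × ℝ → ℝ} (hF : Continuous Ft) (K n m : ℕ) :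
    (appr (fun q => Ft (cst q)) (box K n) m).Nonempty := by
  have hne : (box K n).Nonempty := ⟨(0, 0, 0), by simp [box]⟩
  obtain ⟨B, hB⟩ := (isCompact_rbox K n).bddAbove_image hF.continuousOn
  have hbdd : BddAbove ((fun q => Ft (cst q)) '' box K n) := by
    refine ⟨B, ?_⟩
    rintro _ ⟨q, hq, rfl⟩
    exact hB ⟨_, cst_mem_rbox hq, rfl⟩
  have hlt : sSup ((fun q => Ft (cst q)) '' box K n) - 1 / ((m : ℝ) + 1) <
      sSup ((fun q => Ft (cst q)) '' box K n) := sub_lt_self _ (by positivity)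
  obtain ⟨_, ⟨q, hq, rfl⟩, h⟩ := exists_lt_of_lt_csSup (hne.image _) hlt
  refine ⟨q, hq, fun q' hq' => ?_⟩
  have h2 := le_csSup hbdd ⟨q', hq', rfl⟩
  simp only at h h2 ⊢
  linarith

theorem limsup_V_eq {Ft : ℝ × ℝ × ℝ → ℝ} (hF : Continuous Ft) {K n : ℕ} {p : ℝ × ℝ × ℝ}
    (hp : p ∈ rbox K n) (hmax : ∀ p' ∈ rbox K n, p' ≠ p → Ft p' < Ft p) :
    limsup (fun m => V (fun q => Ft (cst q)) (box K n) m) atTop = ((p.2.1 - p.1 : ℝ) : EReal) := by
  refine Tendsto.limsup_eq ?_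
  rw [tendsto_order]
  constructor
  · intro a ha
    obtain ⟨r, hr1, hr2⟩ := EReal.lt_iff_exists_real_btwn.1 ha
    rw [EReal.coe_lt_coe_iff] at hr2
    obtain ⟨m₀, hm₀⟩ := appr_subset_nhds hF hp hmax (U := {p' | r < p'.2.1 - p'.1})
      (isOpen_lt continuous_const (by fun_prop)) hr2
    filter_upwards [eventually_ge_atTop m₀] with m hm
    obtain ⟨q, hq⟩ := appr_nonempty hF K n m
    have h1 : r < (cst q).2.1 - (cst q).1 := hm₀ m hm q hq
    refine lt_of_lt_of_le hr1 ?_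
    have h2 : (((((q.2.1 : ℚ) : ℝ) - ((q.1 : ℚ) : ℝ) : ℝ)) : EReal) ≤
        V (fun q => Ft (cst q)) (box K n) m := by
      unfold V
      refine le_iSup_of_le q ?_
      rw [if_pos hq]
    refine le_trans ?_ h2
    rw [EReal.coe_le_coe_iff]
    exact h1.le
  · intro a ha
    obtain ⟨r, hr1, hr2⟩ := EReal.lt_iff_exists_real_btwn.1 ha
    rw [EReal.coe_lt_coe_iff] at hr1
    obtain ⟨m₀, hm₀⟩ := appr_subset_nhds hF hp hmax (U := {p' | p'.2.1 - p'.1 < r})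
      (isOpen_lt (by fun_prop) continuous_const) hr1
    filter_upwards [eventually_ge_atTop m₀] with m hm
    refine lt_of_le_of_lt ?_ hr2
    unfold V
    refine iSup_le fun q => ?_
    split_ifs with hq
    · rw [EReal.coe_le_coe_iff]
      have h1 : (cst q).2.1 - (cst q).1 < r := hm₀ m hm q hq
      exact h1.le
    · exact bot_le

/-- If a continuous function on `ℝ³` has a unique maximiser, `PsiE` is its `z - x`. -/
theorem PsiE_eq {Ft : ℝ × ℝ × ℝ → ℝ} (hF : Continuous Ft) {p : ℝ × ℝ × ℝ}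
    (hmax : ∀ p', p' ≠ p → Ft p' < Ft p) {κ : ℕ → ℕ} {n₀ : ℕ}
    (hn₀ : ∀ n, n₀ ≤ n → p ∈ rbox (κ n) n) {F : ℚ × ℚ × ℚ → ℝ} (hFF : ∀ q, F q = Ft (cst q)) :
    PsiE κ F = ((p.2.1 - p.1 : ℝ) : EReal) := by
  have hFF' : F = fun q => Ft (cst q) := funext hFF
  rw [hFF']
  unfold PsiE
  have : (fun n => limsup (fun m => V (fun q => Ft (cst q)) (box (κ n) n) m) atTop) =ᶠ[atTop]
      fun _ => ((p.2.1 - p.1 : ℝ) : EReal) := by
    filter_upwards [eventually_ge_atTop n₀] with n hn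
    exact limsup_V_eq hF (hn₀ n hn) fun p' _ h => hmax p' h
  rw [limsup_congr this]
  simp

/-- data with a unique maximiser in the interior of the box belong to `G` -/
theorem mem_G {e : E0} {Mt : ℝ × ℝ → ℝ} (hM : Continuous Mt)
    (he : ∀ x y : ℚ, M2 e x y = Mt (x, y)) {p : ℝ × ℝ} (hmax : ∀ p', p' ≠ p → Mt p' < Mt p)
    {K : ℕ} (h1 : |p.1| < K) (h2 : |p.2| < K) : e ∈ G K := by
  set D : Set (ℝ × ℝ) := {p' | |p'.1| ≤ K ∧ |p'.2| ≤ K ∧ (|p'.1| = K ∨ |p'.2| = K)} with hD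
  have hDc : IsCompact D := by
    have h3 : IsCompact (Icc (-(K : ℝ)) K ×ˢ Icc (-(K : ℝ)) K) := isCompact_Icc.prod isCompact_Icc
    refine h3.of_isClosed_subset ?_ ?_
    · have : D = {p' | |p'.1| ≤ (K : ℝ)} ∩ ({p' | |p'.2| ≤ (K : ℝ)} ∩
          ({p' | |p'.1| = (K : ℝ)} ∪ {p' | |p'.2| = (K : ℝ)})) := by
        ext p'
        simp only [hD, mem_ofPred_eq, mem_inter_iff, mem_union]
      rw [this]
      refine (isClosed_le (by fun_prop) continuous_const).inter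
        ((isClosed_le (by fun_prop) continuous_const).inter
          ((isClosed_eq (by fun_prop) continuous_const).union
            (isClosed_eq (by fun_prop) continuous_const)))
    · rintro p' ⟨h4, h5, -⟩
      rw [abs_le] at h4 h5
      exact ⟨h4, h5⟩
  have hDne : D.Nonempty := ⟨(K, K), by simp [hD]⟩
  obtain ⟨p1, hp1, hp1'⟩ := hDc.exists_isMaxOn hDne hM.continuousOn
  have hne : p1 ≠ p := by
    rintro rfl
    rcases hp1.2.2 with h | h
    · exact absurd h h1.ne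
    · exact absurd h h2.ne
  have hlt := hmax p1 hne
  obtain ⟨κ, hκ0, hκ1⟩ := exists_rat_btwn (half_pos (sub_pos.2 hlt))
  have hopen : IsOpen {p' : ℝ × ℝ | Mt p - (Mt p - Mt p1) / 2 < Mt p'} :=
    isOpen_lt continuous_const hM
  have hmem : p ∈ {p' : ℝ × ℝ | Mt p - (Mt p - Mt p1) / 2 < Mt p'} := by
    simp only [mem_ofPred_eq]
    linarith
  obtain ⟨ε, hε, hball⟩ := Metric.isOpen_iff.1 hopen p hmem
  obtain ⟨x, hx, hx'⟩ := exists_rat_near h1.le hε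
  obtain ⟨y, hy, hy'⟩ := exists_rat_near h2.le hε
  refine ⟨x, y, κ, hx, hy, by exact_mod_cast hκ0, fun x' y' hx1 hy1 hor => ?_⟩
  have h3 : ((x : ℝ), (y : ℝ)) ∈ Metric.ball p ε := by
    rw [Metric.mem_ball, Prod.dist_eq]
    exact max_lt hx' hy'
  have h4 := hball h3
  simp only [mem_ofPred_eq] at h4
  have h5 : ((x' : ℝ), (y' : ℝ)) ∈ D := by
    have h5a : |(x' : ℝ)| ≤ K := by exact_mod_cast hx1
    have h5b : |(y' : ℝ)| ≤ K := by exact_mod_cast hy1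
    refine ⟨h5a, h5b, ?_⟩
    rcases hor with h | h
    · left
      show |(x' : ℝ)| = K
      exact_mod_cast h
    · right
      show |(y' : ℝ)| = K
      exact_mod_cast h
  have h6 : Mt (x', y') ≤ Mt p1 := hp1' h5
  rw [he, he]
  linarith

end Pool.Agent.H12.GW
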