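import Pool.Agent.H37.DL.Defs

/-!
# Rescaled increments of a path over a window
-/

open MeasureTheory Topology
open Pool.Agent.H37.DL

namespace Pool.Agent.H12.GW

/-- The rescaled increments of the path `π` over the window `[a, b]`:
`s ↦ (b - a) ^ (-2/3) (π(a + (b - a) s) - π(a))`, `0 ≤ s ≤ 1`. -/
noncomputable def win (a b : ℝ) (π : C(unitInterval, ℝ)) : C(unitInterval, ℝ) where
  toFun s := ((b - a) ^ (2 / 3 : ℝ))⁻¹ * (ext π (a + (b - a) * s) - ext π a)
  continuous_toFun := by
    unfold ext
    fun_prop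

end Pool.Agent.H12.GW
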