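import Pool.Agent.H37.DL.Defs

/-!
# Increments of a path over windows of arbitrary length
-/

open MeasureTheory Topology
open Pool.Agent.H37.DL

namespace Pool.Agent.H12.GW

/-- The increments `η_t(s) = π(t + s) - π(t)`, `0 ≤ s ≤ r`, over the window `[t, t + r]`. -/
noncomputable def etaW (r : ℝ) (π : C(unitInterval, ℝ)) (t : ℝ) : C(Set.Icc (0 : ℝ) r, ℝ) where
  toFun s := ext π (t + s) - ext π t
  continuous_toFun := by
    unfold ext
    fun_prop

noncomputable instance (r : ℝ) : MeasurableSpace C(Set.Icc (0 : ℝ) r, ℝ) := borel _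
instance (r : ℝ) : BorelSpace C(Set.Icc (0 : ℝ) r, ℝ) := ⟨rfl⟩

end Pool.Agent.H12.GW
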