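import Pool.Agent.H12.GW.Conv

/-!
# Hats make the box maximiser global
-/

open Filter Topology Set

namespace Pool.Agent.H12.GW

/-- smooth bump, equal to one on `[-K, K]`, zero outside `[-K - 2/(j+1), K + 2/(j+1)]` -/
noncomputable def hatBump (K j : ℕ) : ContDiffBump (0 : ℝ) where
  rIn := K + 1 / ((j : ℝ) + 1)
  rOut := K + 2 / ((j : ℝ) + 1)
  rIn_pos := by positivity
  rIn_lt_rOut := by
    have h : 1 / ((j : ℝ) + 1) < 2 / ((j : ℝ) + 1) := by
      apply div_lt_div_of_pos_right (by norm_num) (by positivity)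
    linarith

/-- hat function -/
noncomputable def hatFun (K r j : ℕ) (x : ℝ) : ℝ := r * hatBump K j x

theorem contDiff_hatFun (K r j : ℕ) : ContDiff ℝ 1 (hatFun K r j) :=
  contDiff_const.mul (hatBump K j).contDiff

theorem hasCompactSupport_hatFun (K r j : ℕ) : HasCompactSupport (hatFun K r j) :=
  (hatBump K j).hasCompactSupport.mul_left

theorem hatFun_nonneg (K r j : ℕ) (x : ℝ) : 0 ≤ hatFun K r j x :=
  mul_nonneg (Nat.cast_nonneg _) (hatBump K j).nonneg

theorem hatFun_le (K r j : ℕ) (x : ℝ) : hatFun K r j x ≤ r :=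
  mul_le_of_le_one_right (Nat.cast_nonneg _) (hatBump K j).le_one

theorem hatFun_eq {K r j : ℕ} {x : ℝ} (hx : |x| ≤ K) : hatFun K r j x = r := by
  unfold hatFun
  rw [(hatBump K j).one_of_mem_closedBall, mul_one]
  rw [Metric.mem_closedBall, Real.dist_eq, sub_zero]
  have : (0 : ℝ) < 1 / ((j : ℝ) + 1) := by positivity
  show |x| ≤ K + 1 / ((j : ℝ) + 1)
  linarith

theorem hatFun_eq_zero {K r j : ℕ} {x : ℝ} (hx : K + 2 / ((j : ℝ) + 1) ≤ |x|) :
    hatFun K r j x = 0 := by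
  unfold hatFun
  rw [(hatBump K j).zero_of_le_dist, mul_zero]
  rw [Real.dist_eq, sub_zero]
  exact hx

/-- rational clamp -/
theorem exists_clamp (K : ℕ) (a : ℚ) : ∃ a' : ℚ, |a'| ≤ K ∧ (¬ |a| ≤ K → |a'| = K) ∧
    ∀ t : ℝ, 0 ≤ t → |(a : ℝ)| ≤ K + t → |(a : ℝ) - a'| ≤ t := by
  rcases lt_or_ge (K : ℚ) a with h | h
  · refine ⟨K, by simp, fun _ => by simp, fun t ht hat => ?_⟩
    have h' : (K : ℝ) < a := by exact_mod_cast h
    have hK : (0 : ℝ) ≤ K := Nat.cast_nonneg K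
    rw [abs_of_pos (by linarith)] at hat
    push_cast
    rw [abs_le]
    constructor <;> linarith
  · rcases lt_or_ge a (-(K : ℚ)) with h2 | h2
    · refine ⟨-K, by simp, fun _ => by simp, fun t ht hat => ?_⟩
      have h' : (a : ℝ) < -K := by exact_mod_cast h2
      have hK : (0 : ℝ) ≤ K := Nat.cast_nonneg K
      rw [abs_of_neg (by linarith)] at hat
      push_cast
      rw [abs_le]
      constructor <;> linarith
    · refine ⟨a, abs_le.2 ⟨h2, h⟩, fun h3 => absurd (abs_le.2 ⟨h2, h⟩) h3, fun t ht _ => ?_⟩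
      simpa using ht

/-- hats on both profiles -/
theorem exists_hat {e : E0} {K : ℕ} (hG : e ∈ G K) {Mt : ℝ × ℝ → ℝ} (hM : Continuous Mt)
    (he : ∀ x y : ℚ, M2 e x y = Mt (x, y)) {B : ℝ} (hB : ∀ x y : ℚ, M2 e x y ≤ B)
    (h32 : ∀ s q, M3 s e q ≤ M2 e q.1 q.2.2)
    (h23 : ∀ s (x y : ℚ) (ε : ℝ), 0 < ε → ∃ z : ℚ, M2 e x y - ε < M3 s e (x, z, y)) :
    ∃ r j : ℕ, Psi id (hat (hatFun K r j) (hatFun K r j) e) = Psi (fun _ => K) e := by
  obtain ⟨x, y, κ, hx, hy, hκ, hbd⟩ := hG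
  have hκ' : (0 : ℝ) < κ := by exact_mod_cast hκ
  have hcomp : IsCompact (Icc (-((K : ℝ) + 2)) (K + 2) ×ˢ Icc (-((K : ℝ) + 2)) (K + 2)) :=
    isCompact_Icc.prod isCompact_Icc
  have huc := hcomp.uniformContinuousOn_of_continuous hM.continuousOn
  rw [Metric.uniformContinuousOn_iff] at huc
  obtain ⟨δ, hδ, huc⟩ := huc ((κ : ℝ) / 2) (half_pos hκ')
  obtain ⟨j, hj⟩ := exists_nat_one_div_lt (half_pos hδ)
  have hj2 : 2 / ((j : ℝ) + 1) < δ := by
    have : 2 / ((j : ℝ) + 1) = 2 * (1 / ((j : ℝ) + 1)) := by ring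
    rw [this]
    linarith
  have hj3 : 2 / ((j : ℝ) + 1) ≤ 2 := by
    rw [div_le_iff₀ (by positivity)]
    have : (0 : ℝ) ≤ j := Nat.cast_nonneg j
    linarith
  have hj4 : 0 < 2 / ((j : ℝ) + 1) := by positivity
  obtain ⟨r, hr⟩ := exists_nat_ge (B - M2 e x y + κ)
  refine ⟨r, j, funext fun s => ?_⟩
  unfold Psi
  obtain ⟨z, hz⟩ := h23 s x y ((κ : ℝ) / 4) (by linarith)
  have key : PsiE id (M3 s (hat (hatFun K r j) (hatFun K r j) e)) =
      PsiE (fun _ => K) (M3 s e) := by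
    refine Psi_hat (R := r) (R' := r) (c := (κ : ℝ) / 4) (by linarith)
      (fun x hx => hatFun_eq (by exact_mod_cast hx))
      (fun x hx => hatFun_eq (by exact_mod_cast hx)) (q₀ := (x, z, y)) hx hy fun q hq => ?_
    have h1 := h32 s q
    suffices hs : M2 e q.1 q.2.2 + (hatFun K r j q.1 + hatFun K r j q.2.2) + (κ : ℝ) / 2 ≤
        M2 e x y + (r + r) by linarith
    by_cases hin : |(q.1 : ℝ)| ≤ K + 2 / ((j : ℝ) + 1) ∧ |(q.2.2 : ℝ)| ≤ K + 2 / ((j : ℝ) + 1)
    · obtain ⟨x1, hx1, hx1', hx1''⟩ := exists_clamp K q.1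
      obtain ⟨y1, hy1, hy1', hy1''⟩ := exists_clamp K q.2.2
      have h2 := hbd x1 y1 hx1 hy1 (by
        by_cases h3 : |q.1| ≤ K
        · right
          exact hy1' fun h4 => hq ⟨h3, h4⟩
        · left
          exact hx1' h3)
      have hdx := hx1'' _ hj4.le hin.1
      have hdy := hy1'' _ hj4.le hin.2
      have h4 := huc ((q.1 : ℝ), (q.2.2 : ℝ)) (by
          constructor
          · exact abs_le.1 (hin.1.trans (by linarith))
          · exact abs_le.1 (hin.2.trans (by linarith))) ((x1 : ℝ), (y1 : ℝ)) (by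
          have hx1r : |(x1 : ℝ)| ≤ K := by exact_mod_cast hx1
          have hy1r : |(y1 : ℝ)| ≤ K := by exact_mod_cast hy1
          constructor
          · exact abs_le.1 (hx1r.trans (by linarith))
          · exact abs_le.1 (hy1r.trans (by linarith))) (by
          rw [Prod.dist_eq]
          exact max_lt (lt_of_le_of_lt hdx hj2) (lt_of_le_of_lt hdy hj2))
      rw [Real.dist_eq, abs_lt] at h4
      rw [← he, ← he] at h4
      have h5 := hatFun_le K r j q.1
      have h6 := hatFun_le K r j q.2.2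
      linarith [h4.2]
    · have h7 : hatFun K r j q.1 + hatFun K r j q.2.2 ≤ r := by
        rw [not_and_or] at hin
        rcases hin with h | h
        · rw [hatFun_eq_zero (not_le.1 h).le, zero_add]
          exact hatFun_le K r j _
        · rw [hatFun_eq_zero (not_le.1 h).le, add_zero]
          exact hatFun_le K r j _
      have h8 := hB q.1 q.2.2
      linarith
  rw [key]

/-- a hat on the second profile, if the first one decreases away from zero -/
theorem exists_hat_start {e : E0} {K : ℕ} (hG : e ∈ G K) {Mt : ℝ × ℝ → ℝ} (hM : Continuous Mt)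
    (he : ∀ x y : ℚ, M2 e x y = Mt (x, y)) {B : ℝ} (hB : ∀ x y : ℚ, M2 e x y ≤ B)
    (hmono : ∀ x x1 y : ℚ, |x1| ≤ |x| → M2 e x y ≤ M2 e x1 y)
    (h32 : ∀ s q, M3 s e q ≤ M2 e q.1 q.2.2)
    (h23 : ∀ s (x y : ℚ) (ε : ℝ), 0 < ε → ∃ z : ℚ, M2 e x y - ε < M3 s e (x, z, y)) :
    ∃ r j : ℕ, Psi id (hat (fun _ => 0) (hatFun K r j) e) = Psi (fun _ => K) e := by
  obtain ⟨x, y, κ, hx, hy, hκ, hbd⟩ := hG
  have hκ' : (0 : ℝ) < κ := by exact_mod_cast hκ
  have hcomp : IsCompact (Icc (-((K : ℝ) + 2)) (K + 2) ×ˢ Icc (-((K : ℝ) + 2)) (K + 2)) :=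
    isCompact_Icc.prod isCompact_Icc
  have huc := hcomp.uniformContinuousOn_of_continuous hM.continuousOn
  rw [Metric.uniformContinuousOn_iff] at huc
  obtain ⟨δ, hδ, huc⟩ := huc ((κ : ℝ) / 2) (half_pos hκ')
  obtain ⟨j, hj⟩ := exists_nat_one_div_lt (half_pos hδ)
  have hj2 : 2 / ((j : ℝ) + 1) < δ := by
    have : 2 / ((j : ℝ) + 1) = 2 * (1 / ((j : ℝ) + 1)) := by ring
    rw [this]
    linarith
  have hj3 : 2 / ((j : ℝ) + 1) ≤ 2 := by
    rw [div_le_iff₀ (by positivity)]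
    have : (0 : ℝ) ≤ j := Nat.cast_nonneg j
    linarith
  have hj4 : 0 < 2 / ((j : ℝ) + 1) := by positivity
  obtain ⟨r, hr⟩ := exists_nat_ge (B - M2 e x y + κ)
  refine ⟨r, j, funext fun s => ?_⟩
  unfold Psi
  obtain ⟨z, hz⟩ := h23 s x y ((κ : ℝ) / 4) (by linarith)
  have key : PsiE id (M3 s (hat (fun _ => 0) (hatFun K r j) e)) =
      PsiE (fun _ => K) (M3 s e) := by
    refine Psi_hat (R := 0) (R' := r) (c := (κ : ℝ) / 4) (by linarith)
      (fun x _ => rfl)
      (fun x hx => hatFun_eq (by exact_mod_cast hx)) (q₀ := (x, z, y)) hx hy fun q hq => ?_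
    have h1 := h32 s q
    suffices hs : M2 e q.1 q.2.2 + hatFun K r j q.2.2 + (κ : ℝ) / 2 ≤
        M2 e x y + r by
      rw [zero_add, zero_add]
      linarith
    by_cases hin : |(q.2.2 : ℝ)| ≤ K + 2 / ((j : ℝ) + 1)
    · obtain ⟨x1, hx1, hx1', hxx⟩ : ∃ x1 : ℚ, |x1| ≤ K ∧ (¬ |q.1| ≤ K → |x1| = K) ∧
          |x1| ≤ |q.1| := by
        by_cases h3 : |q.1| ≤ K
        · exact ⟨q.1, h3, fun h4 => absurd h3 h4, le_rfl⟩
        · refine ⟨K, by simp, fun _ => by simp, ?_⟩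
          rw [Nat.abs_cast]
          exact (not_le.1 h3).le
      obtain ⟨y1, hy1, hy1', hy1''⟩ := exists_clamp K q.2.2
      have h2 := hbd x1 y1 hx1 hy1 (by
        by_cases h3 : |q.1| ≤ K
        · right
          exact hy1' fun h4 => hq ⟨h3, h4⟩
        · left
          exact hx1' h3)
      have hdy := hy1'' _ hj4.le hin
      have hx1r : |(x1 : ℝ)| ≤ K := by exact_mod_cast hx1
      have h4 := huc ((x1 : ℝ), (q.2.2 : ℝ)) (by
          constructor
          · exact abs_le.1 (hx1r.trans (by linarith))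
          · exact abs_le.1 (hin.trans (by linarith))) ((x1 : ℝ), (y1 : ℝ)) (by
          have hy1r : |(y1 : ℝ)| ≤ K := by exact_mod_cast hy1
          constructor
          · exact abs_le.1 (hx1r.trans (by linarith))
          · exact abs_le.1 (hy1r.trans (by linarith))) (by
          rw [Prod.dist_eq]
          exact max_lt (by simpa using hδ) (lt_of_le_of_lt hdy hj2))
      rw [Real.dist_eq, abs_lt] at h4
      rw [← he, ← he] at h4
      have h5 := hmono q.1 x1 q.2.2 hxx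
      have h6 := hatFun_le K r j q.2.2
      linarith [h4.2]
    · rw [hatFun_eq_zero (not_le.1 hin).le]
      have h8 := hB q.1 q.2.2
      linarith
  rw [key]

end Pool.Agent.H12.GW
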