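import Pool.Agent.H12.GW.EBas
import Pool.Agent.H12.GW.Win

/-!
# Windows of the same length, without rescaling
-/

open MeasureTheory ProbabilityTheory Filter Topology Set
open Pool.Agent.H37.DL

namespace Pool.Agent.H12.GW

variable {Ω : Type*} [MeasurableSpace Ω] {P : Measure Ω}
  {L : Ω → ℝ → ℝ → ℝ → ℝ → ℝ} {Pi : Ω → C(unitInterval, ℝ)} {r : ℝ}

theorem unw_mem (hr : 0 < r) (s : Set.Icc (0 : ℝ) r) : (s : ℝ) / r ∈ unitInterval :=
  ⟨div_nonneg s.2.1 hr.le, (div_le_one hr).2 s.2.2⟩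

/-- undo the rescaling of a window of length `r` -/
noncomputable def unw (hr : 0 < r) (g : C(unitInterval, ℝ)) : C(Set.Icc (0 : ℝ) r, ℝ) where
  toFun s := r ^ (2 / 3 : ℝ) * g ⟨s / r, unw_mem hr s⟩

theorem continuous_unw (hr : 0 < r) : Continuous (unw hr) := by
  apply ContinuousMap.continuous_of_continuous_uncurry
  show Continuous fun p : C(unitInterval, ℝ) × Set.Icc (0 : ℝ) r =>
    r ^ (2 / 3 : ℝ) * p.1 ⟨p.2 / r, unw_mem hr p.2⟩
  fun_prop

theorem unw_win (hr : 0 < r) (π : C(unitInterval, ℝ)) (t : ℝ) :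
    unw hr (win t (t + r) π) = etaW r π t := by
  ext s
  have h0 : r ^ (2 / 3 : ℝ) ≠ 0 := (Real.rpow_pos_of_pos hr _).ne'
  show r ^ (2 / 3 : ℝ) * (((t + r - t) ^ (2 / 3 : ℝ))⁻¹ *
    (ext π (t + (t + r - t) * (s / r)) - ext π t)) = ext π (t + s) - ext π t
  have e : t + r - t = r := by ring
  rw [e, mul_inv_cancel_left₀ h0, mul_div_cancel₀ _ hr.ne']

theorem map_unw (hPi : Measurable Pi) (hr : 0 < r) (t : ℝ) :
    (P.map fun ω => win t (t + r) (Pi ω)).map (unw hr) = P.map fun ω => etaW r (Pi ω) t := by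
  rw [Measure.map_map (continuous_unw hr).measurable (measurable_win hPi _ _)]
  congr 1
  funext ω
  exact unw_win hr (Pi ω) t

/-- the laws of the increments over windows of the same length inside `(0, 1)` are
mutually absolutely continuous -/
theorem partI [IsProbabilityMeasure P] (hL : IsDirectedLandscape P L) (hPi : Measurable Pi)
    (hgeo : ∀ᵐ ω ∂P, IsGeodesic (L ω) (Pi ω)) {t u : ℝ} (hr : 0 < r) (ht0 : 0 < t)
    (ht : t < 1 - r) (hu0 : 0 < u) (hu : u < 1 - r) :
    P.map (fun ω => etaW r (Pi ω) t) ≪ P.map (fun ω => etaW r (Pi ω) u) := by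
  rw [← map_unw hPi hr t, ← map_unw hPi hr u]
  exact (ac_int hL hPi hgeo ht0 (by linarith) (by linarith) hu0 (by linarith) (by linarith)).map
    (continuous_unw hr).measurable

/-- mutual singularity of the increments gives mutual singularity of the rescaled ones -/
theorem sing_win (hPi : Measurable Pi) (hr : 0 < r) {t u : ℝ}
    (h : P.map (fun ω => etaW r (Pi ω) t) ⟂ₘ P.map (fun ω => etaW r (Pi ω) u)) :
    P.map (fun ω => win t (t + r) (Pi ω)) ⟂ₘ P.map (fun ω => win u (u + r) (Pi ω)) := by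
  rw [← map_unw hPi hr t, ← map_unw hPi hr u] at h
  exact sing_of_map (continuous_unw hr).measurable h

end Pool.Agent.H12.GW
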