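import Pool.Agent.H37.DL.Asm
import Pool.Agent.H12.GW.EBas

/-!
# The increments on the event `η_t ∈ F`, at small scales
-/

open MeasureTheory ProbabilityTheory Filter Topology Set
open scoped ENNReal
open Pool.Agent.H37.DL

namespace Pool.Agent.H12.GW

variable {Ω : Type*} [MeasurableSpace Ω] {P : Measure Ω} [IsProbabilityMeasure P]
  {L : Ω → ℝ → ℝ → ℝ → ℝ → ℝ} {Pi : Ω → C(unitInterval, ℝ)}
  {Ωb : Type*} [MeasurableSpace Ωb] {Pb : Measure Ωb} [IsProbabilityMeasure Pb]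
  {b : Ωb → ℝ → ℝ} {r : ℝ}

theorem exists_densityF (hPi : Measurable Pi) {t : ℝ} {F : Set C(Set.Icc (0 : ℝ) r, ℝ)}
    (hF : MeasurableSet F)
    (hac : (P.map (fun ω => etaW r (Pi ω) t)).restrict F ≪ P.map (fun ω => etaW r (Pi ω) 0)) :
    ∃ ρ : Ω → ℝ, Integrable ρ P ∧ (∀ ω, 0 ≤ ρ ω) ∧
      ∫ ω, ρ ω ∂P = (P {ω | etaW r (Pi ω) t ∈ F}).toReal ∧
      ∀ B : Set C(Set.Icc (0 : ℝ) r, ℝ), MeasurableSet B →
        (P {ω | etaW r (Pi ω) t ∈ F ∧ etaW r (Pi ω) t ∈ B}).toReal =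
          ∫ ω in {ω | etaW r (Pi ω) 0 ∈ B}, ρ ω ∂P := by
  have hmt := measurable_etaW hPi r t
  have hm0 := measurable_etaW hPi r 0
  set μt := (P.map (fun ω => etaW r (Pi ω) t)).restrict F with hμt
  set μ0 := P.map (fun ω => etaW r (Pi ω) 0) with hμ0
  have h00 : IsProbabilityMeasure (P.map (fun ω => etaW r (Pi ω) t)) :=
    Measure.isProbabilityMeasure_map hmt.aemeasurable
  have : IsProbabilityMeasure μ0 := Measure.isProbabilityMeasure_map hm0.aemeasurable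
  have hfin : IsFiniteMeasure μt := by
    rw [hμt]
    infer_instance
  have hint : Integrable (fun x => (μt.rnDeriv μ0 x).toReal) μ0 :=
    Measure.integrable_toReal_rnDeriv
  have hmf : Measurable (fun x => (μt.rnDeriv μ0 x).toReal) :=
    (Measure.measurable_rnDeriv μt μ0).ennreal_toReal
  have key : ∀ B : Set C(Set.Icc (0 : ℝ) r, ℝ), MeasurableSet B →
        (P {ω | etaW r (Pi ω) t ∈ F ∧ etaW r (Pi ω) t ∈ B}).toReal =
        ∫ ω in {ω | etaW r (Pi ω) 0 ∈ B}, (μt.rnDeriv μ0 (etaW r (Pi ω) 0)).toReal ∂P := by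
    intro B hB
    have h1 : ∫ x in B, (μt.rnDeriv μ0 x).toReal ∂μ0 = μt.real B :=
      Measure.setIntegral_toReal_rnDeriv hac B
    have h2 : ∫ x in B, (μt.rnDeriv μ0 x).toReal ∂μ0 =
        ∫ ω in (fun ω => etaW r (Pi ω) 0) ⁻¹' B,
          (μt.rnDeriv μ0 (etaW r (Pi ω) 0)).toReal ∂P := by
      rw [hμ0]
      exact setIntegral_map hB hmf.aestronglyMeasurable hm0.aemeasurable
    have h3 : (P {ω | etaW r (Pi ω) t ∈ F ∧ etaW r (Pi ω) t ∈ B}).toReal = μt.real B := by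
      rw [Measure.real, hμt, Measure.restrict_apply hB, Measure.map_apply hmt (hB.inter hF),
        inter_comm B F]
      rfl
    rw [h3, ← h1, h2]
    rfl
  refine ⟨fun ω => (μt.rnDeriv μ0 (etaW r (Pi ω) 0)).toReal, ?_,
    fun ω => ENNReal.toReal_nonneg, ?_, key⟩
  · exact (integrable_map_measure hmf.aestronglyMeasurable hm0.aemeasurable).1 hint
  · have h := key Set.univ MeasurableSet.univ
    simp only [mem_univ, and_true, Set.ofPred_true, Measure.restrict_univ] at h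
    exact h.symm

open A34

lemma nu_finite {ρ : Ω → ℝ} (hρ : Integrable ρ P) : IsFiniteMeasure (nu P ρ) :=
  isFiniteMeasure_withDensity_ofReal hρ.2

/-- upper bound -/
theorem upper2F (hL : IsDirectedLandscape P L) (hPi : Measurable Pi)
    (hgeo : ∀ᵐ ω ∂P, IsGeodesic (L ω) (Pi ω)) (hb : IsBM Pb b) (hr : 0 < r) (hr2 : r ≤ 1 / 2)
    {t : ℝ} {F : Set C(Set.Icc (0 : ℝ) r, ℝ)} (hF : MeasurableSet F)
    (hac : (P.map (fun ω => etaW r (Pi ω) t)).restrict F ≪ P.map (fun ω => etaW r (Pi ω) 0))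
    {T C k : ℝ} (hT : 0 < T) {δ : ℝ} (hδ : 0 < δ) :
    ∃ K₀ : ℝ, ∀ K : ℝ, K₀ ≤ K → ∀ᶠ ε in 𝓝[>] (0 : ℝ),
      (P {ω | etaW r (Pi ω) t ∈ F ∧ k ≤ (ε ^ 2)⁻¹ * (ext (Pi ω) (t + (T + 1) * ε ^ 3) -
        ext (Pi ω) (t + T * ε ^ 3))}).toReal ≤
      (P {ω | etaW r (Pi ω) t ∈ F}).toReal * ((P.prod Pb) (box2 L b T K C k)).toReal +
        (P {ω | etaW r (Pi ω) t ∈ F}).toReal *
          ((P.prod Pb) (box1 L b T K {x | C ≤ |x|})).toReal + δ := by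
  obtain ⟨ρ, hρ, hρ0, hρ1, hρB⟩ := exists_densityF (P := P) hPi hF hac
  have := nu_finite hρ
  obtain ⟨η, hη0, hη⟩ := nu_small hρ (δ := δ / 4) (by linarith)
  obtain ⟨K1, hK1, ε1, hε1, hloc1⟩ := loc hL hgeo hT hη0
  obtain ⟨K2, hK2, ε2, hε2, hloc2⟩ := loc hL hgeo (T := T + 1) (by linarith) hη0
  refine ⟨max K1 K2, fun K hK => ?_⟩
  have hKK1 : K1 ≤ K := (le_max_left _ _).trans hK
  have hKK2 : K2 ≤ K := (le_max_right _ _).trans hK
  have hK0 : 0 ≤ K := hK1.le.trans hKK1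
  have hDc : IsClosed {x : ℝ | C ≤ |x|} := isClosed_le continuous_const continuous_abs
  have t1 := box1_tendsto hL hb hT hK0 hDc hρ
  have t2 := box2_tendsto hL hb hT hK0 C k hρ
  rw [hρ1] at t1 t2
  have e1 := t1.eventually_lt_const (lt_add_of_pos_right _ (show (0 : ℝ) < δ / 4 by linarith))
  have e2 := t2.eventually_lt_const (lt_add_of_pos_right _ (show (0 : ℝ) < δ / 4 by linarith))
  have e3 : ∀ᶠ ε in 𝓝[>] (0 : ℝ), (0 : ℝ) < ε := eventually_mem_nhdsWithin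
  have e4 : ∀ᶠ ε in 𝓝[>] (0 : ℝ), ε ^ 3 * (T + 1) < r := by
    have : Tendsto (fun ε : ℝ => ε ^ 3 * (T + 1)) (𝓝[>] 0) (𝓝 (0 ^ 3 * (T + 1))) :=
      (((continuous_id.pow 3).mul continuous_const).tendsto 0).mono_left nhdsWithin_le_nhds
    exact this.eventually_lt_const (by norm_num; exact hr)
  have e5 : ∀ᶠ ε in 𝓝[>] (0 : ℝ), ε < ε1 :=
    (eventually_lt_nhds hε1).filter_mono nhdsWithin_le_nhds
  have e6 : ∀ᶠ ε in 𝓝[>] (0 : ℝ), ε < ε2 :=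
    (eventually_lt_nhds hε2).filter_mono nhdsWithin_le_nhds
  filter_upwards [e1, e2, e3, e4, e5, e6] with ε h1 h2 h3 h4 h5 h6
  have h33 : 0 < ε ^ 3 := pow_pos h3 3
  have h32 : 0 < (ε ^ 2)⁻¹ := inv_pos.2 (pow_pos h3 2)
  -- the event in terms of `eta`
  have hs1 : T * ε ^ 3 ∈ Set.Icc (0 : ℝ) r := ⟨by positivity, by nlinarith⟩
  have hs2 : (T + 1) * ε ^ 3 ∈ Set.Icc (0 : ℝ) r := ⟨by positivity, by nlinarith⟩
  set B : Set C(Set.Icc (0 : ℝ) r, ℝ) :=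
    {g | k ≤ (ε ^ 2)⁻¹ * (g ⟨_, hs2⟩ - g ⟨_, hs1⟩)} with hB
  have hBm : MeasurableSet B := by
    have c1 : Continuous fun g : C(Set.Icc (0 : ℝ) r, ℝ) => g ⟨_, hs2⟩ :=
      continuous_eval_const _
    have c2 : Continuous fun g : C(Set.Icc (0 : ℝ) r, ℝ) => g ⟨_, hs1⟩ :=
      continuous_eval_const _
    exact (isClosed_le continuous_const (continuous_const.mul (c1.sub c2))).measurableSet
  have hE : {ω | etaW r (Pi ω) t ∈ F ∧ k ≤ (ε ^ 2)⁻¹ * (ext (Pi ω) (t + (T + 1) * ε ^ 3) -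
        ext (Pi ω) (t + T * ε ^ 3))} = {ω | etaW r (Pi ω) t ∈ F ∧ etaW r (Pi ω) t ∈ B} := by
    ext ω
    simp only [mem_ofPred_eq, hB, etaW, ContinuousMap.coe_mk]
    have : ext (Pi ω) (t + (T + 1) * ε ^ 3) - ext (Pi ω) (t + T * ε ^ 3) =
      (ext (Pi ω) (t + (T + 1) * ε ^ 3) - ext (Pi ω) t) -
        (ext (Pi ω) (t + T * ε ^ 3) - ext (Pi ω) t) := by ring
    rw [this]
  rw [hE, hρB B hBm, ← nu_toReal hρ hρ0]
  have hE0 : {ω | etaW r (Pi ω) 0 ∈ B} = {ω | k ≤ pos Pi (T + 1) ε ω - pos Pi T ε ω} := by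
    ext ω
    simp only [mem_ofPred_eq, hB, etaW, ContinuousMap.coe_mk, pos]
    have : (ε ^ 2)⁻¹ * ((ext (Pi ω) (0 + (T + 1) * ε ^ 3) - ext (Pi ω) 0) -
        (ext (Pi ω) (0 + T * ε ^ 3) - ext (Pi ω) 0)) =
        (ε ^ 2)⁻¹ * ext (Pi ω) (ε ^ 3 * (T + 1)) - (ε ^ 2)⁻¹ * ext (Pi ω) (ε ^ 3 * T) := by
      rw [zero_add, zero_add, mul_comm (T + 1), mul_comm T]
      ring
    rw [this]
  rw [hE0]
  rw [← nu_toReal hρ hρ0] at h1 h2
  set N := nu P ρ with hN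
  have hbad1 : N {ω | K ≤ |pos Pi T ε ω|} ≤ ENNReal.ofReal (δ / 4) := by
    refine hη _ (le_trans (measure_mono ?_) (hloc1 ε h3 h5))
    intro ω hω
    exact hKK1.trans hω
  have hbad2 : N {ω | K ≤ |pos Pi (T + 1) ε ω|} ≤ ENNReal.ofReal (δ / 4) := by
    refine hη _ (le_trans (measure_mono ?_) (hloc2 ε h3 h6))
    intro ω hω
    exact hKK2.trans hω
  have hmax2 := (nu_ac (P := P) ρ).ae_le (pos_max2 hL hgeo hT h3 (by linarith))
  have hmax1 := (nu_ac (P := P) ρ).ae_le (pos_max1 hL hgeo hT h3 (by nlinarith))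
  have hincl : N {ω | k ≤ pos Pi (T + 1) ε ω - pos Pi T ε ω} ≤
      N (box2e L T K C k ε ∪ (box1e L T K {x | C ≤ |x|} ε ∪
        ({ω | K ≤ |pos Pi T ε ω|} ∪ {ω | K ≤ |pos Pi (T + 1) ε ω|}))) := by
    refine measure_mono_ae ?_
    filter_upwards [hmax2, hmax1] with ω hω2 hω1 hk'
    by_cases c1 : K ≤ |pos Pi T ε ω|
    · exact Or.inr (Or.inr (Or.inl c1))
    by_cases c2 : K ≤ |pos Pi (T + 1) ε ω|
    · exact Or.inr (Or.inr (Or.inr c2))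
    push Not at c1 c2
    have m1 : pos Pi T ε ω ∈ Set.Icc (-K) K := abs_le.1 c1.le
    have m2 : pos Pi (T + 1) ε ω ∈ Set.Icc (-K) K := abs_le.1 c2.le
    by_cases c3 : |pos Pi T ε ω| ≤ C
    · exact Or.inl ⟨_, m1, _, m2, c3, hk', fun x' _ y' _ => hω2 x' y'⟩
    · push Not at c3
      exact Or.inr (Or.inl ⟨_, m1, c3.le, fun x' _ => hω1 x'⟩)
  have hfin : ∀ S : Set Ω, N S ≠ ∞ := fun S => measure_ne_top _ _
  have hsum : N {ω | k ≤ pos Pi (T + 1) ε ω - pos Pi T ε ω} ≤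
      N (box2e L T K C k ε) + (N (box1e L T K {x | C ≤ |x|} ε) +
        (ENNReal.ofReal (δ / 4) + ENNReal.ofReal (δ / 4))) :=
    hincl.trans ((measure_union_le _ _).trans (add_le_add le_rfl ((measure_union_le _ _).trans
      (add_le_add le_rfl ((measure_union_le _ _).trans (add_le_add hbad1 hbad2))))))
  have hr := ENNReal.toReal_mono (by simp [hfin]) hsum
  rw [ENNReal.toReal_add (hfin _) (by simp [hfin]), ENNReal.toReal_add (hfin _) (by simp),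
    ENNReal.toReal_add (by simp) (by simp), ENNReal.toReal_ofReal (by linarith)] at hr
  linarith

/-- lower bound -/
theorem lower1F (hL : IsDirectedLandscape P L) (hPi : Measurable Pi)
    (hgeo : ∀ᵐ ω ∂P, IsGeodesic (L ω) (Pi ω)) (hb : IsBM Pb b) (hr : 0 < r) (hr2 : r ≤ 1 / 2)
    {t : ℝ} {F : Set C(Set.Icc (0 : ℝ) r, ℝ)} (hF : MeasurableSet F)
    (hac : (P.map (fun ω => etaW r (Pi ω) t)).restrict F ≪ P.map (fun ω => etaW r (Pi ω) 0))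
    {k : ℝ} {δ : ℝ} (hδ : 0 < δ) :
    ∃ K₀ : ℝ, ∀ K : ℝ, K₀ ≤ K → ∀ᶠ ε in 𝓝[>] (0 : ℝ),
      (P {ω | etaW r (Pi ω) t ∈ F}).toReal *
        (1 - ((P.prod Pb) (box1 L b 1 K (Set.Iic k))).toReal) - δ ≤
      (P {ω | etaW r (Pi ω) t ∈ F ∧
        k ≤ (ε ^ 2)⁻¹ * (ext (Pi ω) (t + ε ^ 3) - ext (Pi ω) t)}).toReal := by
  obtain ⟨ρ, hρ, hρ0, hρ1, hρB⟩ := exists_densityF (P := P) hPi hF hac
  have := nu_finite hρ
  obtain ⟨η, hη0, hη⟩ := nu_small hρ (δ := δ / 4) (by linarith)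
  obtain ⟨K1, hK1, ε1, hε1, hloc1⟩ := loc hL hgeo (T := 1) one_pos hη0
  refine ⟨K1, fun K hKK1 => ?_⟩
  have hK0 : 0 ≤ K := hK1.le.trans hKK1
  have t1 := box1_tendsto hL hb one_pos hK0 (isClosed_Iic (a := k)) hρ
  have hmass : (nu P ρ univ).toReal = (P {ω | etaW r (Pi ω) t ∈ F}).toReal := by
    rw [nu_toReal hρ hρ0, Measure.restrict_univ, hρ1]
  rw [hρ1] at t1
  have e1 := t1.eventually_lt_const (lt_add_of_pos_right _ (show (0 : ℝ) < δ / 4 by linarith))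
  have e3 : ∀ᶠ ε in 𝓝[>] (0 : ℝ), (0 : ℝ) < ε := eventually_mem_nhdsWithin
  have e4 : ∀ᶠ ε in 𝓝[>] (0 : ℝ), ε ^ 3 * 1 < r := by
    have : Tendsto (fun ε : ℝ => ε ^ 3 * 1) (𝓝[>] 0) (𝓝 (0 ^ 3 * 1)) :=
      (((continuous_id.pow 3).mul continuous_const).tendsto 0).mono_left nhdsWithin_le_nhds
    exact this.eventually_lt_const (by norm_num; exact hr)
  have e5 : ∀ᶠ ε in 𝓝[>] (0 : ℝ), ε < ε1 :=
    (eventually_lt_nhds hε1).filter_mono nhdsWithin_le_nhds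
  filter_upwards [e1, e3, e4, e5] with ε h1 h3 h4 h5
  have h33 : 0 < ε ^ 3 := pow_pos h3 3
  have hs2 : ε ^ 3 ∈ Set.Icc (0 : ℝ) r := ⟨by positivity, by linarith⟩
  set B : Set C(Set.Icc (0 : ℝ) r, ℝ) := {g | k ≤ (ε ^ 2)⁻¹ * g ⟨_, hs2⟩} with hB
  have hBm : MeasurableSet B := by
    have c1 : Continuous fun g : C(Set.Icc (0 : ℝ) r, ℝ) => g ⟨_, hs2⟩ :=
      continuous_eval_const _
    exact (isClosed_le continuous_const (continuous_const.mul c1)).measurableSet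
  have hE : {ω | etaW r (Pi ω) t ∈ F ∧ k ≤ (ε ^ 2)⁻¹ * (ext (Pi ω) (t + ε ^ 3) -
      ext (Pi ω) t)} = {ω | etaW r (Pi ω) t ∈ F ∧ etaW r (Pi ω) t ∈ B} := by
    ext ω
    simp only [mem_ofPred_eq, hB, etaW, ContinuousMap.coe_mk]
  rw [hE, hρB B hBm, ← nu_toReal hρ hρ0]
  -- the geodesic starts at `0`
  have hz : ∀ᵐ ω ∂P, ext (Pi ω) 0 = 0 := by
    filter_upwards [hgeo] with ω hω
    have : ext (Pi ω) 0 = Pi ω 0 := by
      unfold Pool.Agent.H37.DL.ext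
      rw [Set.projIcc_left]
      rfl
    rw [this, hω.1]
  rw [← nu_toReal hρ hρ0] at h1
  set N := nu P ρ with hN
  have hbad1 : N {ω | K ≤ |pos Pi 1 ε ω|} ≤ ENNReal.ofReal (δ / 4) := by
    refine hη _ (le_trans (measure_mono ?_) (hloc1 ε h3 h5))
    intro ω hω
    exact hKK1.trans hω
  have hmax1 := (nu_ac (P := P) ρ).ae_le (pos_max1 hL hgeo one_pos h3 (by linarith))
  have hz' := (nu_ac (P := P) ρ).ae_le hz
  have hcompl : N {ω | etaW r (Pi ω) 0 ∈ B}ᶜ ≤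
      N (box1e L 1 K (Set.Iic k) ε ∪ {ω | K ≤ |pos Pi 1 ε ω|}) := by
    refine measure_mono_ae ?_
    filter_upwards [hmax1, hz'] with ω hω1 hω0 hk'
    by_cases c1 : K ≤ |pos Pi 1 ε ω|
    · exact Or.inr c1
    push Not at c1
    have m1 : pos Pi 1 ε ω ∈ Set.Icc (-K) K := abs_le.1 c1.le
    refine Or.inl ⟨_, m1, ?_, fun x' _ => hω1 x'⟩
    have h6 : ¬ (k ≤ (ε ^ 2)⁻¹ * (ext (Pi ω) (0 + ε ^ 3) - ext (Pi ω) 0)) := by
      intro h7
      exact hk' h7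
    rw [hω0, sub_zero, zero_add] at h6
    show pos Pi 1 ε ω ≤ k
    unfold pos
    rw [mul_one]
    exact (not_le.1 h6).le
  have hfin : ∀ S : Set Ω, N S ≠ ∞ := fun S => measure_ne_top _ _
  have hone : N univ ≤ N {ω | etaW r (Pi ω) 0 ∈ B} + N {ω | etaW r (Pi ω) 0 ∈ B}ᶜ := by
    rw [← Set.union_compl_self {ω | etaW r (Pi ω) 0 ∈ B}]
    exact measure_union_le _ _
  have hsum : N univ ≤ N {ω | etaW r (Pi ω) 0 ∈ B} +
      (N (box1e L 1 K (Set.Iic k) ε) + ENNReal.ofReal (δ / 4)) :=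
    hone.trans (add_le_add le_rfl (hcompl.trans ((measure_union_le _ _).trans
      (add_le_add le_rfl hbad1))))
  have hr := ENNReal.toReal_mono (by simp [hfin]) hsum
  rw [ENNReal.toReal_add (hfin _) (by simp [hfin]), ENNReal.toReal_add (hfin _) (by simp),
    ENNReal.toReal_ofReal (by linarith), hmass] at hr
  linarith

end Pool.Agent.H12.GW
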