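import Mathlib

/-!
# Measures that are not mutually singular
-/

open MeasureTheory Set
open scoped ENNReal

namespace Pool.Agent.H12.GW

/-- If `μ` and `ν` are not mutually singular, `μ` is absolutely continuous with respect to `ν` on
some closed set of positive `μ`-measure. -/
theorem exists_part {X : Type*} [PseudoEMetricSpace X] [MeasurableSpace X] [BorelSpace X]
    (μ ν : Measure X) [IsFiniteMeasure μ] [IsFiniteMeasure ν] (h : ¬ μ ⟂ₘ ν) :
    ∃ F : Set X, IsClosed F ∧ μ F ≠ 0 ∧ μ.restrict F ≪ ν := by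
  obtain ⟨s, hs, h1, h2⟩ := μ.mutuallySingular_singularPart ν
  have hμs : μ s ≠ 0 := by
    intro h0
    exact h ⟨s, hs, h0, h2⟩
  have hac : ∀ B : Set X, B ⊆ s → ν B = 0 → μ B = 0 := by
    intro B hB hν
    rw [← μ.singularPart_add_rnDeriv ν, Measure.add_apply, measure_mono_null hB h1,
      (withDensity_absolutelyContinuous ν (μ.rnDeriv ν)) hν, add_zero]
  obtain ⟨F, hFs, hF, hF'⟩ := hs.exists_lt_isClosed_of_ne_top (μ := μ) (measure_ne_top _ _)
    (pos_iff_ne_zero.2 hμs)
  refine ⟨F, hF, hF'.ne', ?_⟩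
  refine Measure.AbsolutelyContinuous.mk fun B hB h0 => ?_
  rw [Measure.restrict_apply hB]
  exact hac _ (inter_subset_right.trans hFs) (measure_mono_null inter_subset_left h0)

end Pool.Agent.H12.GW
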