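import Mathlib

/-!
# Approximate maximisers over rational boxes

For a function `F` on `ℚ³` and a set `A`, `appr F A m` is the set of the `q ∈ A` at which `F` is
within `1/(m+1)` of its supremum over `A`.  `PsiE κ F` is the value of `z - x` at such points, in
the limit `m → ∞` and then `n → ∞` for the boxes `box (κ n) n`.  `Psi κ e s` is this for the sum
`M3 s e` of the three profiles of the data `e`.
-/

open Filter Topology Set

namespace Pool.Agent.H12.GW

/-- rational times in `(0, 1)` -/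
abbrev T0 : Type := {s : ℚ // 0 < s ∧ s < 1}

/-- rational quadruples `(x, a; y, b)` with `0 ≤ a < b ≤ 1` -/
abbrev J0 : Type := {q : ℚ × ℚ × ℚ × ℚ // 0 ≤ q.2.1 ∧ q.2.1 < q.2.2.2 ∧ q.2.2.2 ≤ 1}

/-- the data: profile from the start, landscape on `[0, 1]`, profile to the end -/
abbrev E0 : Type := ((ℚ → ℝ) × (J0 → ℝ)) × (ℚ → ℝ)

/-- lower half -/
def lo (s : T0) (x z : ℚ) : J0 := ⟨(x, 0, z, s.1), le_rfl, s.2.1, s.2.2.le⟩

/-- upper half -/
def up (s : T0) (z y : ℚ) : J0 := ⟨(z, s.1, y, 1), s.2.1.le, s.2.2, le_rfl⟩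

/-- whole -/
def wh (x y : ℚ) : J0 := ⟨(x, 0, y, 1), le_rfl, by norm_num, le_rfl⟩

/-- total weight through `x`, `z`, `y` at times `0`, `s`, `1` -/
def M3 (s : T0) (e : E0) (q : ℚ × ℚ × ℚ) : ℝ :=
  e.1.1 q.1 + e.1.2 (lo s q.1 q.2.1) + e.1.2 (up s q.2.1 q.2.2) + e.2 q.2.2

/-- total weight through `x`, `y` at times `0`, `1` -/
def M2 (e : E0) (x y : ℚ) : ℝ := e.1.1 x + e.1.2 (wh x y) + e.2 y

/-- rational box -/
def box (K n : ℕ) : Set (ℚ × ℚ × ℚ) := {q | |q.1| ≤ K ∧ |q.2.1| ≤ n ∧ |q.2.2| ≤ K}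

/-- approximate maximisers -/
def appr (F : ℚ × ℚ × ℚ → ℝ) (A : Set (ℚ × ℚ × ℚ)) (m : ℕ) : Set (ℚ × ℚ × ℚ) :=
  {q | q ∈ A ∧ ∀ q' ∈ A, F q' < F q + 1 / ((m : ℝ) + 1)}

open Classical in
/-- supremum of `z - x` over the approximate maximisers -/
noncomputable def V (F : ℚ × ℚ × ℚ → ℝ) (A : Set (ℚ × ℚ × ℚ)) (m : ℕ) : EReal :=
  ⨆ q : ℚ × ℚ × ℚ, if q ∈ appr F A m then ((((q.2.1 : ℚ) : ℝ) - ((q.1 : ℚ) : ℝ) : ℝ) : EReal)
    else ⊥

/-- the limiting value of `z - x` at approximate maximisers -/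
noncomputable def PsiE (κ : ℕ → ℕ) (F : ℚ × ℚ × ℚ → ℝ) : EReal :=
  limsup (fun n => limsup (fun m => V F (box (κ n) n) m) atTop) atTop

/-- the limiting value of `z - x` at approximate maximisers of the data -/
noncomputable def Psi (κ : ℕ → ℕ) (e : E0) (s : T0) : ℝ := (PsiE κ (M3 s e)).toReal

theorem measurable_M3 (s : T0) (q : ℚ × ℚ × ℚ) : Measurable fun e : E0 => M3 s e q := by
  unfold M3
  fun_prop

theorem measurable_M2 (x y : ℚ) : Measurable fun e : E0 => M2 e x y := by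
  unfold M2
  fun_prop

theorem measurableSet_appr (s : T0) (A : Set (ℚ × ℚ × ℚ)) (m : ℕ) (q : ℚ × ℚ × ℚ) :
    MeasurableSet {e : E0 | q ∈ appr (M3 s e) A m} := by
  have : {e : E0 | q ∈ appr (M3 s e) A m} =
      {_e : E0 | q ∈ A} ∩ ⋂ q' : ℚ × ℚ × ℚ, {e : E0 | q' ∈ A →
        M3 s e q' < M3 s e q + 1 / ((m : ℝ) + 1)} := by
    ext e
    simp only [appr, mem_ofPred_eq, mem_inter_iff, mem_iInter]
  rw [this]
  refine (MeasurableSet.const _).inter (MeasurableSet.iInter fun q' => ?_)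
  by_cases h : q' ∈ A
  · simp only [h, forall_const]
    exact measurableSet_lt (measurable_M3 s q') ((measurable_M3 s q).add_const _)
  · simp [h]

theorem measurable_V (s : T0) (A : Set (ℚ × ℚ × ℚ)) (m : ℕ) :
    Measurable fun e : E0 => V (M3 s e) A m := by
  classical
  unfold V
  refine Measurable.iSup fun q => ?_
  exact Measurable.ite (measurableSet_appr s A m q) measurable_const measurable_const

theorem measurable_Psi (κ : ℕ → ℕ) : Measurable (Psi κ) := by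
  refine measurable_pi_lambda _ fun s => ?_
  unfold Psi PsiE
  refine measurable_ereal_toReal.comp ?_
  refine Measurable.limsup fun n => ?_
  exact Measurable.limsup fun m => measurable_V s _ m

theorem limsup_V_congr {F G : ℚ × ℚ × ℚ → ℝ} {A B : Set (ℚ × ℚ × ℚ)} {m₀ : ℕ}
    (h : ∀ m, m₀ ≤ m → appr F A m = appr G B m) :
    limsup (fun m => V F A m) atTop = limsup (fun m => V G B m) atTop := by
  refine limsup_congr ?_
  filter_upwards [eventually_ge_atTop m₀] with m hm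
  unfold V
  rw [h m hm]

theorem PsiE_congr {κ κ' : ℕ → ℕ} {F G : ℚ × ℚ × ℚ → ℝ} {m₀ n₀ : ℕ}
    (h : ∀ n, n₀ ≤ n → ∀ m, m₀ ≤ m → appr F (box (κ n) n) m = appr G (box (κ' n) n) m) :
    PsiE κ F = PsiE κ' G := by
  refine limsup_congr ?_
  filter_upwards [eventually_ge_atTop n₀] with n hn
  exact limsup_V_congr (h n hn)

theorem appr_add_const {F G : ℚ × ℚ × ℚ → ℝ} {A : Set (ℚ × ℚ × ℚ)} {c : ℝ}
    (h : ∀ q ∈ A, F q = G q + c) (m : ℕ) : appr F A m = appr G A m := by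
  ext q
  simp only [appr, mem_ofPred_eq]
  refine and_congr_right fun hq => ?_
  refine forall₂_congr fun q' hq' => ?_
  rw [h q hq, h q' hq']
  constructor <;> intro h <;> linarith

/-- data with the profiles replaced by their increments on `[-K, K]` -/
noncomputable def trunc (K : ℕ) (f : ℚ → ℝ) (x : ℚ) : ℝ := if |x| ≤ K then f x - f 0 else 0

theorem measurable_trunc (K : ℕ) : Measurable (trunc K) := by
  refine measurable_pi_lambda _ fun x => ?_
  unfold trunc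
  split_ifs
  · fun_prop
  · exact measurable_const

/-- truncation of the data -/
noncomputable def truncE (K : ℕ) (e : E0) : E0 := ((trunc K e.1.1, e.1.2), trunc K e.2)

theorem Psi_truncE (K : ℕ) (e : E0) : Psi (fun _ => K) (truncE K e) = Psi (fun _ => K) e := by
  funext s
  have key : PsiE (fun _ => K) (M3 s (truncE K e)) = PsiE (fun _ => K) (M3 s e) := by
    refine PsiE_congr (m₀ := 0) (n₀ := 0) fun n _ m _ => ?_
    refine appr_add_const (c := - e.1.1 0 - e.2 0) (fun q hq => ?_) m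
    obtain ⟨h1, h2, h3⟩ := hq
    simp only [M3, truncE, trunc, if_pos h1, if_pos h3]
    ring
  unfold Psi
  rw [key]

/-- the maximum of `M2` over the box is not on the boundary -/
def G (K : ℕ) : Set E0 :=
  {e | ∃ x y κ : ℚ, |x| ≤ K ∧ |y| ≤ K ∧ 0 < κ ∧ ∀ x' y' : ℚ, |x'| ≤ K → |y'| ≤ K →
    (|x'| = K ∨ |y'| = K) → M2 e x' y' + κ ≤ M2 e x y}

theorem measurableSet_G (K : ℕ) : MeasurableSet (G K) := by
  have : G K = ⋃ x : ℚ, ⋃ y : ℚ, ⋃ κ : ℚ, ({_e : E0 | |x| ≤ K ∧ |y| ≤ K ∧ 0 < κ} ∩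
      ⋂ x' : ℚ, ⋂ y' : ℚ, {e : E0 | |x'| ≤ K → |y'| ≤ K →
        (|x'| = K ∨ |y'| = K) → M2 e x' y' + κ ≤ M2 e x y}) := by
    ext e
    simp only [G, mem_ofPred_eq, mem_iUnion, mem_inter_iff, mem_iInter]
    constructor
    · rintro ⟨x, y, κ, h1, h2, h3, h4⟩
      exact ⟨x, y, κ, ⟨h1, h2, h3⟩, h4⟩
    · rintro ⟨x, y, κ, ⟨h1, h2, h3⟩, h4⟩
      exact ⟨x, y, κ, h1, h2, h3, h4⟩
  rw [this]
  refine MeasurableSet.iUnion fun x => MeasurableSet.iUnion fun y => MeasurableSet.iUnion fun κ =>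
    (MeasurableSet.const _).inter (MeasurableSet.iInter fun x' => MeasurableSet.iInter fun y' => ?_)
  by_cases h1 : |x'| ≤ K
  · by_cases h2 : |y'| ≤ K
    · by_cases h3 : |x'| = K ∨ |y'| = K
      · simp only [h1, h2, h3, forall_const]
        exact measurableSet_le ((measurable_M2 x' y').add_const _) (measurable_M2 x y)
      · simp [h3]
    · simp [h2]
  · simp [h1]

theorem truncE_mem_G {K : ℕ} {e : E0} : truncE K e ∈ G K ↔ e ∈ G K := by
  have key : ∀ x y : ℚ, |x| ≤ K → |y| ≤ K → M2 (truncE K e) x y = M2 e x y - e.1.1 0 - e.2 0 := by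
    intro x y hx hy
    simp only [M2, truncE, trunc, if_pos hx, if_pos hy]
    ring
  unfold G
  simp only [mem_ofPred_eq]
  refine exists_congr fun x => exists_congr fun y => exists_congr fun κ =>
    and_congr_right fun hx => and_congr_right fun hy => and_congr_right fun _ => ?_
  refine forall₂_congr fun x' y' => forall₂_congr fun hx' hy' => forall_congr' fun _ => ?_
  rw [key x y hx hy, key x' y' hx' hy']
  constructor <;> intro h <;> linarith

/-- functions added to the two profiles -/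
noncomputable def hat (φ ψ : ℝ → ℝ) (e : E0) : E0 :=
  ((fun x => e.1.1 x + φ x, e.1.2), fun y => e.2 y + ψ y)

theorem measurable_hat (φ ψ : ℝ → ℝ) : Measurable (hat φ ψ) := by
  unfold hat
  refine ((measurable_pi_lambda _ fun x => ?_).prodMk (by fun_prop)).prodMk
    (measurable_pi_lambda _ fun x => ?_)
  · fun_prop
  · fun_prop

theorem measurable_truncE (K : ℕ) : Measurable (truncE K) := by
  unfold truncE
  exact (((measurable_trunc K).comp (by fun_prop)).prodMk (by fun_prop)).prodMk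
    ((measurable_trunc K).comp (by fun_prop))

theorem M3_hat (φ ψ : ℝ → ℝ) (e : E0) (s : T0) (q : ℚ × ℚ × ℚ) :
    M3 s (hat φ ψ e) q = M3 s e q + (φ q.1 + ψ q.2.2) := by
  simp only [M3, hat]
  ring

/-- hats do not change the approximate maximisers if they dominate -/
theorem Psi_hat {φ ψ : ℝ → ℝ} {e : E0} {K : ℕ} {s : T0} {R R' c : ℝ} (hc : 0 < c)
    (hφ : ∀ x : ℚ, |x| ≤ K → φ x = R) (hψ : ∀ x : ℚ, |x| ≤ K → ψ x = R')
    {q₀ : ℚ × ℚ × ℚ} (h1 : |q₀.1| ≤ K) (h2 : |q₀.2.2| ≤ K)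
    (h : ∀ q : ℚ × ℚ × ℚ, ¬ (|q.1| ≤ K ∧ |q.2.2| ≤ K) →
      M3 s e q + (φ q.1 + ψ q.2.2) + c ≤ M3 s e q₀ + (R + R')) :
    PsiE id (M3 s (hat φ ψ e)) = PsiE (fun _ => K) (M3 s e) := by
  obtain ⟨m₀, hm₀⟩ := exists_nat_one_div_lt hc
  obtain ⟨n₁, hn₁⟩ := exists_nat_ge |q₀.2.1|
  refine PsiE_congr (m₀ := m₀) (n₀ := max K n₁) fun n hn m hm => ?_
  have hmc : 1 / ((m : ℝ) + 1) < c := by
    refine lt_of_le_of_lt ?_ hm₀
    have : (m₀ : ℝ) ≤ m := by exact_mod_cast hm
    exact one_div_le_one_div_of_le (by positivity) (by linarith)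
  have hK : K ≤ n := (le_max_left _ _).trans hn
  have hK' : (K : ℚ) ≤ n := by exact_mod_cast hK
  have hq₀ : q₀ ∈ box K n := ⟨h1, hn₁.trans (by exact_mod_cast (le_max_right _ _).trans hn), h2⟩
  have hsub : box K n ⊆ box (id n) n := fun q hq => ⟨hq.1.trans hK', hq.2.1, hq.2.2.trans hK'⟩
  have hin : ∀ q ∈ box K n, M3 s (hat φ ψ e) q = M3 s e q + (R + R') := by
    intro q hq
    rw [M3_hat, hφ _ hq.1, hψ _ hq.2.2]
  have hout : ∀ q ∈ box (id n) n, q ∉ box K n →
      M3 s (hat φ ψ e) q + c ≤ M3 s e q₀ + (R + R') := by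
    intro q hq hq'
    rw [M3_hat]
    refine h q fun h3 => hq' ⟨h3.1, hq.2.1, h3.2⟩
  ext q
  constructor
  · rintro ⟨hq, hq'⟩
    have hqK : q ∈ box K n := by
      by_contra hcon
      have h3 := hout q hq hcon
      have h4 := hq' q₀ (hsub hq₀)
      rw [hin q₀ hq₀] at h4
      linarith
    refine ⟨hqK, fun q' hq'' => ?_⟩
    have h5 := hq' q' (hsub hq'')
    rw [hin q hqK, hin q' hq''] at h5
    linarith
  · rintro ⟨hq, hq'⟩
    refine ⟨hsub hq, fun q' hq'' => ?_⟩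
    by_cases hcase : q' ∈ box K n
    · have h5 := hq' q' hcase
      rw [hin q hq, hin q' hcase]
      linarith
    · have h3 := hout q' hq'' hcase
      have h4 := hq' q₀ hq₀
      rw [hin q hq]
      linarith

end Pool.Agent.H12.GW
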