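import Pool.Agent.H12.GW.Part
import Pool.Agent.H12.GW.Avg
import Pool.Agent.H12.GW.Lim
import Pool.Agent.H12.GW.Len

/-!
# The window at the start: mutual singularity
-/

open MeasureTheory ProbabilityTheory Filter Topology Set
open scoped ENNReal
open Pool.Agent.H37.DL

namespace Pool.Agent.H12.GW

variable {Ω : Type*} [MeasurableSpace Ω] {P : Measure Ω} [IsProbabilityMeasure P]
  {L : Ω → ℝ → ℝ → ℝ → ℝ → ℝ} {Pi : Ω → C(unitInterval, ℝ)}
  {Ωb : Type*} [MeasurableSpace Ωb] {Pb : Measure Ωb} [IsProbabilityMeasure Pb]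
  {b : Ωb → ℝ → ℝ} {r : ℝ}

omit [IsProbabilityMeasure P] in
theorem measurable_etaW_uncurry (hPi : Measurable Pi) :
    Measurable fun p : ℝ × Ω => etaW r (Pi p.2) p.1 := by
  have h : Measurable (Function.uncurry fun (s : ℝ) (ω : Ω) => etaW r (Pi ω) s) := by
    apply measurable_uncurry_of_continuous_of_measurable
    · intro ω
      exact (continuous_etaW_uncurry r).comp (Continuous.prodMk_left (Pi ω))
    · intro s
      exact measurable_etaW hPi r s
  exact h

omit [IsProbabilityMeasure P] in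
theorem measurable_ext_uncurry (hPi : Measurable Pi) :
    Measurable fun p : ℝ × Ω => ext (Pi p.2) p.1 := by
  have h2 : Measurable (Function.uncurry fun (s : ℝ) (ω : Ω) => ext (Pi ω) s) := by
    apply measurable_uncurry_of_continuous_of_measurable
    · intro ω
      show Continuous fun s => ext (Pi ω) s
      unfold Pool.Agent.H37.DL.ext
      fun_prop
    · intro s
      exact measurable_ext hPi s
  exact h2

theorem measurable_w (hPi : Measurable Pi) {F : Set C(Set.Icc (0 : ℝ) r, ℝ)}
    (hF : MeasurableSet F) : Measurable fun t : ℝ => (P {ω | etaW r (Pi ω) t ∈ F}).toReal :=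
  (measurable_measure_prodMk_left (measurable_etaW_uncurry hPi hF)).ennreal_toReal

theorem measurable_a (hPi : Measurable Pi) {F : Set C(Set.Icc (0 : ℝ) r, ℝ)}
    (hF : MeasurableSet F) (k ε : ℝ) : Measurable fun t : ℝ =>
      (P {ω | etaW r (Pi ω) t ∈ F ∧
        k ≤ (ε ^ 2)⁻¹ * (ext (Pi ω) (t + ε ^ 3) - ext (Pi ω) t)}).toReal := by
  have h1 := measurable_ext_uncurry hPi
  have h4 : Measurable fun p : ℝ × Ω =>
      (ε ^ 2)⁻¹ * (ext (Pi p.2) (p.1 + ε ^ 3) - ext (Pi p.2) p.1) := by
    have h5 : Measurable fun p : ℝ × Ω => ext (Pi p.2) (p.1 + ε ^ 3) :=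
      h1.comp ((measurable_fst.add_const _).prodMk measurable_snd)
    exact (h5.sub h1).const_mul _
  have h6 : MeasurableSet {p : ℝ × Ω | etaW r (Pi p.2) p.1 ∈ F ∧
      k ≤ (ε ^ 2)⁻¹ * (ext (Pi p.2) (p.1 + ε ^ 3) - ext (Pi p.2) p.1)} :=
    (measurable_etaW_uncurry hPi hF).inter (measurableSet_le measurable_const h4)
  exact (measurable_measure_prodMk_left h6).ennreal_toReal

/-- continuity of the paths in the space of continuous functions -/
theorem tendsto_b (hPi : Measurable Pi) {F : Set C(Set.Icc (0 : ℝ) r, ℝ)} (hF : IsClosed F)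
    (T t : ℝ) : Tendsto (fun ε : ℝ => (P {ω | etaW r (Pi ω) (t + T * ε ^ 3) ∈ F ∧
      etaW r (Pi ω) t ∉ F}).toReal) (𝓝[>] 0) (𝓝 0) := by
  have h : Tendsto (fun ε : ℝ => P {ω | etaW r (Pi ω) (t + T * ε ^ 3) ∈ F ∧
      etaW r (Pi ω) t ∉ F}) (𝓝[>] 0) (𝓝 (P ∅)) := by
    refine tendsto_measure_of_tendsto_indicator_of_isFiniteMeasure (𝓝[>] (0 : ℝ)) P (fun ε => ?_)
      (fun ω => ?_)
    · exact (measurable_etaW hPi r _ hF.measurableSet).inter
        (measurable_etaW hPi r _ hF.measurableSet).compl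
    · by_cases hω : etaW r (Pi ω) t ∈ F
      · refine Eventually.of_forall fun ε => ?_
        simp [hω]
      · have hc : Tendsto (fun ε : ℝ => etaW r (Pi ω) (t + T * ε ^ 3)) (𝓝[>] 0)
            (𝓝 (etaW r (Pi ω) t)) := by
          have h1 : Continuous fun ε : ℝ => etaW r (Pi ω) (t + T * ε ^ 3) :=
            (continuous_etaW_uncurry r).comp (f := fun ε : ℝ => (t + T * ε ^ 3, Pi ω))
              (by fun_prop)
          have h2 := (h1.tendsto 0).mono_left (nhdsWithin_le_nhds (s := Set.Ioi (0 : ℝ)))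
          simpa using h2
        have h3 := hc.eventually (hF.isOpen_compl.mem_nhds hω)
        filter_upwards [h3] with ε hε
        simp only [mem_ofPred_eq, mem_empty_iff_false, iff_false, not_and]
        intro h4
        exact absurd h4 hε
  rw [measure_empty] at h
  have h2 := (ENNReal.tendsto_toReal ENNReal.zero_ne_top).comp h
  rw [ENNReal.toReal_zero] at h2
  exact h2

end Pool.Agent.H12.GW
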